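import Pool.Agent.J4.H75.GF.BMix

/-!
# Bipartite pieces: walks and paths
-/

set_option autoImplicit false
set_option linter.unusedSectionVars false

open Finset Matrix

namespace Pool.Agent.J4.H75.GF

open Pool.Agent.J4.H75.GE Pool.TH815.GR

/-- The expansion properties of the optimal bipartite piece. -/
structure GoodB (k : ℕ) (h K : ℝ) {m : ℕ} (H : SimpleGraph (Fin m)) [DecidableRel H.Adj]
    (σ : Fin m → Bool) : Prop where
  girth : ∀ (v : Fin m) (p : H.Walk v v), p.IsCycle → 2 * k < p.length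
  proper : ∀ x y, H.Adj x y → σ x ≠ σ y
  deg_le : ∀ x, (H.degree x : ℝ) ≤ K * (m : ℝ) ^ (1 / (k : ℝ))
  deg_ge : ∀ x, h * (m : ℝ) ^ (1 / (k : ℝ)) ≤ (H.degree x : ℝ)
  exp : ∀ X : Finset (Fin m), 2 * X.card ≤ m →
    h * (m : ℝ) ^ (1 / (k : ℝ)) * X.card ≤ ar H X Xᶜ

theorem exists_goodB {k : ℕ} (hk : 1 ≤ k) {c : ℝ} (hc : 0 < c) :
    ∃ (δ h K : ℝ), 0 < δ ∧ 0 < h ∧ 0 < K ∧ ∀ (V : Type) [Fintype V] (G : SimpleGraph V),
      (∀ (v : V) (p : G.Walk v v), p.IsCycle → 2 * k < p.length) → 1 ≤ Fintype.card V →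
      c * (Fintype.card V : ℝ) ^ (1 + 1 / (k : ℝ)) ≤ (G.edgeSet.ncard : ℝ) →
      ∃ (m : ℕ) (H : SimpleGraph (Fin m)) (_ : DecidableRel H.Adj) (σ : Fin m → Bool), 0 < m ∧
        δ * Fintype.card V ≤ m ∧ H.IsContained G ∧ GoodB k h K H σ := by
  have hkpos : (0 : ℝ) < k := by exact_mod_cast hk
  set a : ℝ := 1 + 1 / (2 * (k : ℝ)) with ha
  have hk2 : 0 < 1 / (2 * (k : ℝ)) := by positivity
  have ha1 : 1 < a := by rw [ha]; linarith
  have ha2 : a < 1 + 1 / (k : ℝ) := by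
    rw [ha]
    have : 1 / (2 * (k : ℝ)) < 1 / (k : ℝ) := by
      apply one_div_lt_one_div_of_lt hkpos
      linarith
    linarith
  obtain ⟨δ, hδ, K, hK, h1⟩ := exists_optimal (c := c / 2) hk (by positivity) ha1 ha2
  obtain ⟨ε2, hε2, D, h2⟩ := optimal_expands (k := k) (c := c / 2) hk (by positivity) ha1 hK
  refine ⟨δ, min ε2 (c / 4), K, hδ, lt_min hε2 (by positivity), hK, ?_⟩
  intro V _ G hg hn he
  classical
  obtain ⟨B, hB, hBc, hBe⟩ := half_bip G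
  have hgB := no_cycle_mono hB hg
  have hee : (B.edgeFinset.card : ℝ) = (B.edgeSet.ncard : ℝ) := by
    rw [← SimpleGraph.coe_edgeFinset, Set.ncard_coe_finset]
  obtain ⟨m, φ, hm, hsize, hopt, hE, hdeg⟩ := h1 V B hgB hn (by rw [hee]; linarith)
  have hgH := cycle_comap (G := B) φ hgB
  have hdeg' : ∀ x, ((B.comap φ).degree x : ℝ) ≤
      K * (Fintype.card (Fin m) : ℝ) ^ (1 / (k : ℝ)) := by
    intro x
    rw [Fintype.card_fin]
    refine le_trans ?_ (hdeg x)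
    rw [← deg_eq, ← deg_eq]
    rw [← card_map φ]
    apply Nat.cast_le.2
    apply card_le_card
    intro y hy
    rw [mem_map] at hy
    obtain ⟨z, hz, rfl⟩ := hy
    rw [mem_filter] at hz ⊢
    exact ⟨mem_univ _, hz.2⟩
  obtain ⟨h3, h4, -⟩ := h2 (Fin m) (B.comap φ) hgH hopt (by rw [Fintype.card_fin]; exact hE) hdeg'
  rw [Fintype.card_fin] at h3 h4 hdeg'
  have hc4 : c / 2 / 2 = c / 4 := by ring
  rw [hc4] at h3
  have hm0 : (0 : ℝ) < m := by exact_mod_cast hm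
  have hD0 : 0 < (m : ℝ) ^ (1 / (k : ℝ)) := Real.rpow_pos_of_pos hm0 _
  obtain ⟨col⟩ := hBc
  refine ⟨m, B.comap φ, inferInstance, fun x => decide (col (φ x) = 0), hm, hsize, ?_,
    ⟨hgH, ?_, hdeg', fun x => ?_, fun X hX => ?_⟩⟩
  · have e1 : (B.comap φ).IsContained B := ⟨(SimpleGraph.Embedding.comap φ B).toCopy⟩
    exact e1.trans (SimpleGraph.IsContained.of_le hB)
  · intro x y hxy hc
    have h5 := col.valid (show B.Adj (φ x) (φ y) from hxy)
    apply h5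
    rw [decide_eq_decide] at hc
    have key : ∀ i j : Fin 2, (i = 0 ↔ j = 0) → i = j := by decide
    exact key _ _ hc
  · refine le_trans ?_ (h3 x)
    exact mul_le_mul_of_nonneg_right (min_le_right _ _) hD0.le
  · refine le_trans ?_ (h4 X hX).1
    have : min ε2 (c / 4) ≤ ε2 := min_le_left _ _
    gcongr

section Numbers

variable {k : ℕ} {h K : ℝ} {m : ℕ} {H : SimpleGraph (Fin m)} [DecidableRel H.Adj]
  {σ : Fin m → Bool}

/-- The constants. -/
theorem GoodB.mix (hk : 1 ≤ k) (hh : 0 < h) (hK : 0 < K) (hm : 0 < m) (hH : GoodB k h K H σ)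
    {l : ℕ} (hl : 2 * k ≤ l) (x y : Fin m) :
    |(nP H ^ l) x y - (1 + (-1) ^ l * (sg σ x * sg σ y)) * (nφ H x * nφ H y / vol H)| ≤
      (1 - h ^ 2 / (2 * K ^ 2)) ^ (l - 2 * k) * ((4 * K / h ^ 2) ^ k / m) := by
  have hm0 : (0 : ℝ) < m := by exact_mod_cast hm
  have hkpos : (0 : ℝ) < k := by exact_mod_cast hk
  set D : ℝ := (m : ℝ) ^ (1 / (k : ℝ)) with hD
  have hD0 : 0 < D := Real.rpow_pos_of_pos hm0 _
  have hDk : D ^ k = m := by
    rw [hD, ← Real.rpow_natCast, ← Real.rpow_mul hm0.le]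
    have : (1 / (k : ℝ)) * (k : ℝ) = 1 := by field_simp
    rw [this, Real.rpow_one]
  have : Nonempty (Fin m) := ⟨⟨0, hm⟩⟩
  have h1 := mixing_b (G := H) hH.proper hk hH.girth (t := h * D) (Δ := K * D) (by positivity)
    hH.deg_le (by positivity) hH.deg_ge (by rw [Fintype.card_fin]; exact hH.exp) hl x y
  have e1 : (h * D) ^ 2 / (2 * (K * D) ^ 2) = h ^ 2 / (2 * K ^ 2) := by
    field_simp
  have e2 : (4 * (K * D)) ^ k / (h * D) ^ (2 * k) = (4 * K / h ^ 2) ^ k / m := by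
    rw [← hDk, pow_mul, mul_pow h D 2, ← div_pow, ← div_pow]
    congr 1
    field_simp
  rwa [e1, e2] at h1

theorem GoodB.vol_le (hH : GoodB k h K H σ) : vol H ≤ m * (K * (m : ℝ) ^ (1 / (k : ℝ))) := by
  unfold vol
  calc ∑ x, (H.degree x : ℝ) ≤ ∑ x : Fin m, K * (m : ℝ) ^ (1 / (k : ℝ)) :=
        sum_le_sum fun x _ => hH.deg_le x
    _ = _ := by rw [sum_const, card_univ, Fintype.card_fin, nsmul_eq_mul]

theorem GoodB.stat_ge (hh : 0 < h) (hK : 0 < K) (hm : 0 < m)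
    (hH : GoodB k h K H σ) {s : ℝ} (hs : h * (m : ℝ) ^ (1 / (k : ℝ)) ≤ s) :
    h / (K * m) ≤ s / vol H := by
  have hm0 : (0 : ℝ) < m := by exact_mod_cast hm
  have hD0 : 0 < (m : ℝ) ^ (1 / (k : ℝ)) := Real.rpow_pos_of_pos hm0 _
  set D : ℝ := (m : ℝ) ^ (1 / (k : ℝ)) with hD
  have hd' : ∀ x, 0 < H.degree x := by
    intro x
    have : (0 : ℝ) < H.degree x := lt_of_lt_of_le (by positivity) (hH.deg_ge x)
    exact_mod_cast this
  have : Nonempty (Fin m) := ⟨⟨0, hm⟩⟩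
  have hv := vol_pos hd'
  rw [div_le_div_iff₀ (by positivity) hv]
  calc h * vol H ≤ h * (m * (K * D)) := mul_le_mul_of_nonneg_left hH.vol_le hh.le
    _ = (h * D) * (K * m) := by ring
    _ ≤ s * (K * m) := mul_le_mul_of_nonneg_right hs (by positivity)

theorem parity_sign {V : Type} (σ : V → Bool) {l : ℕ} {x y : V} (h : Even l ↔ σ x = σ y) :
    (-1 : ℝ) ^ l * (sg σ x * sg σ y) = 1 := by
  unfold sg
  by_cases he : Even l
  · have h1 := h.1 he
    rw [he.neg_one_pow, h1]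
    split_ifs <;> norm_num
  · have h1 : σ x ≠ σ y := fun e => he (h.2 e)
    rw [(Nat.not_even_iff_odd.1 he).neg_one_pow]
    cases h2 : σ x <;> cases h3 : σ y <;> simp_all

/-- Lower bound for the number of walks. -/
theorem GoodB.walks (hk : 1 ≤ k) (hh : 0 < h) (hK : 0 < K) (hm : 0 < m) (hH : GoodB k h K H σ)
    {l : ℕ} (hl : 2 * k ≤ l)
    (hθ : (1 - h ^ 2 / (2 * K ^ 2)) ^ (l - 2 * k) * (4 * K / h ^ 2) ^ k ≤ h / (2 * K))
    {x y : Fin m} (hpar : Even l ↔ σ x = σ y) :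
    h / (2 * K) * h ^ l * ((m : ℝ) ^ (1 / (k : ℝ))) ^ (l - k) ≤ N H l x y := by
  have hm0 : (0 : ℝ) < m := by exact_mod_cast hm
  have hkpos : (0 : ℝ) < k := by exact_mod_cast hk
  set D : ℝ := (m : ℝ) ^ (1 / (k : ℝ)) with hD
  have hD0 : 0 < D := Real.rpow_pos_of_pos hm0 _
  have hDk : D ^ k = m := by
    rw [hD, ← Real.rpow_natCast, ← Real.rpow_mul hm0.le]
    have : (1 / (k : ℝ)) * (k : ℝ) = 1 := by field_simp
    rw [this, Real.rpow_one]
  have h1 := hH.mix hk hh hK hm hl x y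
  rw [parity_sign σ hpar] at h1
  have h2 : h / (K * m) ≤ nφ H x * nφ H y / vol H := by
    apply hH.stat_ge hh hK hm
    have a1 : √(h * D) ≤ nφ H x := Real.sqrt_le_sqrt (hH.deg_ge x)
    have a2 : √(h * D) ≤ nφ H y := Real.sqrt_le_sqrt (hH.deg_ge y)
    calc h * D = √(h * D) * √(h * D) := (Real.mul_self_sqrt (by positivity)).symm
      _ ≤ _ := mul_le_mul a1 a2 (Real.sqrt_nonneg _) ((Real.sqrt_nonneg _).trans a1)
  have h3 : h / (2 * K * m) ≤ (nP H ^ l) x y := by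
    have h4 : (1 - h ^ 2 / (2 * K ^ 2)) ^ (l - 2 * k) * ((4 * K / h ^ 2) ^ k / m) ≤
        h / (2 * K * m) := by
      have h7 : h / (2 * K * m) = h / (2 * K) / m := by rw [div_div]
      rw [h7, ← mul_div_assoc]
      exact div_le_div_of_nonneg_right hθ hm0.le
    have h5 := (abs_le.1 h1).1
    have h6 : h / (K * m) = 2 * (h / (2 * K * m)) := by
      field_simp
    have h8 : 0 ≤ h / (2 * K * m) := by positivity
    rw [h6] at h2
    linarith
  have h4 := nP_pow_le (G := H) (t := h * D) (by positivity) hH.deg_ge l x y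
  rw [pow_eq_N] at h4
  refine le_trans ?_ h4
  calc h / (2 * K) * h ^ l * D ^ (l - k) = (h * D) ^ l * (h / (2 * K * m)) := by
        have : D ^ l = D ^ (l - k) * m := by
          rw [← hDk, ← pow_add]
          congr 1
          omega
        rw [mul_pow, this]
        field_simp
    _ ≤ _ := mul_le_mul_of_nonneg_left h3 (by positivity)

open Classical in
/-- Lower bound for the number of paths. -/
theorem GoodB.paths (hk : 1 ≤ k) (hh : 0 < h) (hK : 0 < K) (hm : 0 < m) (hH : GoodB k h K H σ)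
    {l M : ℕ} (hl : 4 * k ≤ l)
    (hθ : (1 - h ^ 2 / (2 * K ^ 2)) ^ (l - 2 * k) * (4 * K / h ^ 2) ^ k ≤ h / (2 * K))
    (hD : ((l + 1 : ℝ) ^ 2 + M * (l + 1)) * (4 ^ k * K ^ (l - k - 1)) ≤
      h / (4 * K) * h ^ l * (m : ℝ) ^ (1 / (k : ℝ)))
    {x y : Fin m} (hpar : Even l ↔ σ x = σ y)
    (hxy : x ≠ y) (S : Finset (Fin m)) (hS : S.card ≤ M) (hx : x ∉ S) (hy : y ∉ S) :
    h / (4 * K) * h ^ l * ((m : ℝ) ^ (1 / (k : ℝ))) ^ (l - k) ≤
      (((H.finsetWalkLength l x y).filter fun p => p.IsPath ∧ ∀ z ∈ S, z ∉ p.support).card : ℝ) := by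
  have hm0 : (0 : ℝ) < m := by exact_mod_cast hm
  set D : ℝ := (m : ℝ) ^ (1 / (k : ℝ)) with hDd
  have hD0 : 0 < D := Real.rpow_pos_of_pos hm0 _
  have h1 := hH.walks hk hh hK hm (by omega) hθ hpar
  have h2 := paths_ge hH.girth hH.deg_le (by positivity) hl hxy S hx hy
  refine le_trans ?_ (h2.trans (le_of_eq (by congr!)))
  rw [← hDd]
  rw [← hDd] at h1
  have h3 : ((l + 1 : ℝ) ^ 2 + S.card * (l + 1)) * (4 ^ k * (K * D) ^ (l - k - 1)) ≤
      h / (4 * K) * h ^ l * D ^ (l - k) := by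
    have hS' : (S.card : ℝ) ≤ M := by exact_mod_cast hS
    calc ((l + 1 : ℝ) ^ 2 + S.card * (l + 1)) * (4 ^ k * (K * D) ^ (l - k - 1))
        ≤ ((l + 1 : ℝ) ^ 2 + M * (l + 1)) * (4 ^ k * (K * D) ^ (l - k - 1)) := by gcongr
      _ = (((l + 1 : ℝ) ^ 2 + M * (l + 1)) * (4 ^ k * K ^ (l - k - 1))) * D ^ (l - k - 1) := by
          rw [mul_pow]; ring
      _ ≤ (h / (4 * K) * h ^ l * D) * D ^ (l - k - 1) :=
          mul_le_mul_of_nonneg_right hD (by positivity)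
      _ = h / (4 * K) * h ^ l * D ^ (l - k) := by
          rw [mul_assoc, ← pow_succ']
          congr 2
          omega
  have h4 : h / (2 * K) = 2 * (h / (4 * K)) := by
    field_simp
    ring
  rw [h4] at h1
  linarith

end Numbers

end Pool.Agent.J4.H75.GF
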