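import Pool.Agent.J4.H75.GF.Cyc

/-!
# Subdivisions with prescribed lengths
-/

set_option autoImplicit false
set_option linter.unusedSectionVars false

open Finset

namespace Pool.Agent.J4.H75.GF

theorem greedy {m : ℕ} (H : SimpleGraph (Fin m)) (r L : ℕ) (φ : Fin r → Fin m)
    (hφ : Function.Injective φ) (len : Fin r × Fin r → ℕ) (hlen : ∀ e, len e ≤ L)
    (hpath : ∀ e : Fin r × Fin r, e.1 ≠ e.2 → ∀ S : Finset (Fin m),
      S.card ≤ r + r * r * (L + 1) → φ e.1 ∉ S → φ e.2 ∉ S →
      ∃ p : H.Walk (φ e.1) (φ e.2), p.IsPath ∧ p.length = len e ∧ ∀ z ∈ S, z ∉ p.support) :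
    ∃ P : ∀ e : Fin r × Fin r, H.Walk (φ e.1) (φ e.2), ∀ e, e.1 < e.2 →
      (P e).IsPath ∧ (P e).length = len e ∧
      (∀ t, t ≠ e.1 → t ≠ e.2 → φ t ∉ (P e).support) ∧
      ∀ e', e'.1 < e'.2 → e' ≠ e → ∀ z ∈ (P e).support, z ∈ (P e').support → ∃ t, z = φ t := by
  classical
  have hne : ∀ e : Fin r × Fin r, Nonempty (H.Walk (φ e.1) (φ e.2)) := by
    intro e
    by_cases h : e.1 = e.2
    · rw [h]
      exact ⟨SimpleGraph.Walk.nil⟩
    · obtain ⟨p, -⟩ := hpath e h ∅ (by simp) (by simp) (by simp)
      exact ⟨p⟩
  have key : ∀ E : Finset (Fin r × Fin r), (∀ e ∈ E, e.1 < e.2) →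
      ∃ P : ∀ e : Fin r × Fin r, H.Walk (φ e.1) (φ e.2), ∀ e ∈ E,
        (P e).IsPath ∧ (P e).length = len e ∧
        (∀ t, t ≠ e.1 → t ≠ e.2 → φ t ∉ (P e).support) ∧
        ∀ e' ∈ E, e' ≠ e → ∀ z ∈ (P e).support, z ∈ (P e').support → ∃ t, z = φ t := by
    intro E
    induction E using Finset.induction_on with
    | empty =>
      intro _
      exact ⟨fun e => (hne e).some, fun e he => absurd he (by simp)⟩
    | insert e0 E he0 ih =>
      intro hE
      obtain ⟨P, hP⟩ := ih fun e he => hE e (mem_insert_of_mem he)
      have h0 : e0.1 < e0.2 := hE e0 (mem_insert_self _ _)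
      set T : Finset (Fin m) := univ.image φ ∪ E.biUnion fun e => (P e).support.toFinset with hT
      set S : Finset (Fin m) := T \ {φ e0.1, φ e0.2} with hS
      have hTcard : T.card ≤ r + r * r * (L + 1) := by
        have h1 : (univ.image φ).card ≤ r := by
          refine card_image_le.trans ?_
          rw [card_univ, Fintype.card_fin]
        have h2 : (E.biUnion fun e => (P e).support.toFinset).card ≤ r * r * (L + 1) := by
          refine card_biUnion_le.trans ?_
          calc ∑ e ∈ E, (P e).support.toFinset.card ≤ ∑ e ∈ E, (L + 1) := by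
                refine sum_le_sum fun e he => ?_
                refine (List.toFinset_card_le _).trans ?_
                rw [SimpleGraph.Walk.length_support, (hP e he).2.1]
                exact Nat.succ_le_succ (hlen e)
            _ = E.card * (L + 1) := by rw [sum_const, smul_eq_mul]
            _ ≤ r * r * (L + 1) := by
                apply Nat.mul_le_mul_right
                refine (card_le_univ E).trans ?_
                rw [Fintype.card_prod, Fintype.card_fin]
        exact (card_union_le _ _).trans (add_le_add h1 h2)
      obtain ⟨p, hp1, hp2, hp3⟩ := hpath e0 h0.ne S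
        ((card_le_card sdiff_subset).trans hTcard)
        (by simp [hS]) (by simp [hS])
      have hin : ∀ z ∈ p.support, z ∈ T → z = φ e0.1 ∨ z = φ e0.2 := by
        intro z hz hzT
        by_contra hcon
        push Not at hcon
        apply hp3 z _ hz
        rw [hS, mem_sdiff]
        refine ⟨hzT, ?_⟩
        rw [mem_insert, mem_singleton]
        push Not
        exact hcon
      refine ⟨Function.update P e0 p, fun e he => ?_⟩
      by_cases hee : e = e0
      · subst hee
        rw [Function.update_self]
        refine ⟨hp1, hp2, ?_, ?_⟩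
        · intro t ht1 ht2 ht
          rcases hin _ ht (by
            rw [hT, mem_union]
            exact Or.inl (mem_image_of_mem φ (mem_univ t))) with h | h
          · exact ht1 (hφ h)
          · exact ht2 (hφ h)
        · intro e' he' hne' z hz hz'
          rw [Function.update_of_ne hne'] at hz'
          rw [mem_insert] at he'
          have he'' : e' ∈ E := by
            rcases he' with h | h
            · exact absurd h hne'
            · exact h
          rcases hin z hz (by
            rw [hT, mem_union, mem_biUnion]
            exact Or.inr ⟨e', he'', by simpa using hz'⟩) with h | h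
          · exact ⟨_, h⟩
          · exact ⟨_, h⟩
      · have heE : e ∈ E := by
          rw [mem_insert] at he
          rcases he with h | h
          · exact absurd h hee
          · exact h
        rw [Function.update_of_ne hee]
        obtain ⟨h1, h2, h3, h4⟩ := hP e heE
        refine ⟨h1, h2, h3, ?_⟩
        intro e' he' hne' z hz hz'
        by_cases he0' : e' = e0
        · subst he0'
          rw [Function.update_self] at hz'
          rcases hin z hz' (by
            rw [hT, mem_union, mem_biUnion]
            exact Or.inr ⟨e, heE, by simpa using hz⟩) with h | h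
          · exact ⟨_, h⟩
          · exact ⟨_, h⟩
        · rw [Function.update_of_ne he0'] at hz'
          rw [mem_insert] at he'
          have he'' : e' ∈ E := by
            rcases he' with h | h
            · exact absurd h he0'
            · exact h
          exact h4 e' he'' hne' z hz hz'
  obtain ⟨P, hP⟩ := key (univ.filter fun e => e.1 < e.2) (fun e he => by
    rw [mem_filter] at he
    exact he.2)
  refine ⟨P, fun e he => ?_⟩
  obtain ⟨h1, h2, h3, h4⟩ := hP e (by rw [mem_filter]; exact ⟨mem_univ _, he⟩)
  exact ⟨h1, h2, h3, fun e' he' => h4 e' (by rw [mem_filter]; exact ⟨mem_univ _, he'⟩)⟩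

end Pool.Agent.J4.H75.GF
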