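import Pool.Agent.J4.H75.GF.Cyc
import Pool.Agent.J4.H75.GE.Expand

/-!
# Uniform mixing up to parity in bipartite pieces
-/

set_option autoImplicit false
set_option linter.unusedSectionVars false

open Finset Matrix

namespace Pool.Agent.J4.H75.GF

open Pool.Agent.J4.H75.GE Pool.TH815.GR

section General

variable {V : Type} [Fintype V] [DecidableEq V]

/-- The sign of a colour. -/
noncomputable def sg (σ : V → Bool) (x : V) : ℝ := if σ x then 1 else -1

theorem sg_sq (σ : V → Bool) (x : V) : sg σ x * sg σ x = 1 := by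
  unfold sg
  split_ifs <;> norm_num

variable (G : SimpleGraph V) [DecidableRel G.Adj] (σ : V → Bool)

/-- The signed vector. -/
noncomputable def nψ : V → ℝ := fun x => sg σ x * nφ G x

/-- The second projection. -/
noncomputable def nS : Matrix V V ℝ := fun x y => nψ G σ x * nψ G σ y / vol G

theorem nS_symm : (nS G σ)ᵀ = nS G σ := by
  ext x y
  rw [Matrix.transpose_apply]
  unfold nS
  ring

variable {G σ}

theorem sg_adj (hσ : ∀ x y, G.Adj x y → σ x ≠ σ y) {x y : V} (h : G.Adj x y) :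
    sg σ y = - sg σ x := by
  have := hσ x y h
  unfold sg
  cases h1 : σ x <;> cases h2 : σ y <;> simp_all

theorem ad_sg (hσ : ∀ x y, G.Adj x y → σ x ≠ σ y) (x y : V) :
    ad G x y * sg σ y = - (ad G x y * sg σ x) := by
  unfold ad
  split_ifs with h
  · rw [sg_adj hσ h]; ring
  · ring

theorem nP_mul_ψ (hσ : ∀ x y, G.Adj x y → σ x ≠ σ y) (hd : ∀ x, 0 < G.degree x) :
    nP G *ᵥ nψ G σ = - nψ G σ := by
  ext x
  have h := congrFun (nP_mul_φ hd) x
  rw [Matrix.mulVec, dotProduct] at h ⊢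
  calc ∑ y, nP G x y * nψ G σ y = ∑ y, - sg σ x * (nP G x y * nφ G y) := by
        refine sum_congr rfl fun y _ => ?_
        unfold nψ nP
        have := ad_sg hσ x y
        calc ad G x y / (√(G.degree x : ℝ) * √(G.degree y : ℝ)) * (sg σ y * nφ G y) =
            (ad G x y * sg σ y) / (√(G.degree x : ℝ) * √(G.degree y : ℝ)) * nφ G y := by ring
          _ = _ := by rw [this]; ring
    _ = - sg σ x * nφ G x := by rw [← mul_sum, h]
    _ = (- nψ G σ) x := by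
        rw [Pi.neg_apply, nψ]
        ring

theorem ψψ : nψ G σ ⬝ᵥ nψ G σ = vol G := by
  rw [← φφ, dotProduct, dotProduct]
  refine sum_congr rfl fun x _ => ?_
  unfold nψ
  calc sg σ x * nφ G x * (sg σ x * nφ G x) = (sg σ x * sg σ x) * (nφ G x * nφ G x) := by ring
    _ = _ := by rw [sg_sq, one_mul]

theorem φψ (hσ : ∀ x y, G.Adj x y → σ x ≠ σ y) (hd : ∀ x, 0 < G.degree x) :
    nφ G ⬝ᵥ nψ G σ = 0 := by
  have h1 : nφ G ⬝ᵥ (nP G *ᵥ nψ G σ) = nφ G ⬝ᵥ nψ G σ := by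
    rw [Matrix.dotProduct_mulVec, ← Matrix.mulVec_transpose, nP_symm, nP_mul_φ hd]
  rw [nP_mul_ψ hσ hd, dotProduct_neg] at h1
  linarith

theorem nS_mulVec (v : V → ℝ) : nS G σ *ᵥ v = ((nψ G σ ⬝ᵥ v) / vol G) • nψ G σ := by
  ext x
  rw [Matrix.mulVec, dotProduct, Pi.smul_apply, smul_eq_mul, dotProduct, sum_div, sum_mul]
  refine sum_congr rfl fun y _ => ?_
  unfold nS
  ring

theorem nP_mul_nS (hσ : ∀ x y, G.Adj x y → σ x ≠ σ y) (hd : ∀ x, 0 < G.degree x) :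
    nP G * nS G σ = - nS G σ := by
  ext x y
  rw [Matrix.mul_apply]
  have h := congrFun (nP_mul_ψ hσ hd) x
  rw [Matrix.mulVec, dotProduct] at h
  calc ∑ z, nP G x z * nS G σ z y = (∑ z, nP G x z * nψ G σ z) * (nψ G σ y / vol G) := by
        rw [sum_mul]
        refine sum_congr rfl fun z _ => ?_
        unfold nS
        ring
    _ = (- nS G σ) x y := by
        rw [h, Pi.neg_apply, Matrix.neg_apply]
        unfold nS
        ring

theorem nS_mul_nP (hσ : ∀ x y, G.Adj x y → σ x ≠ σ y) (hd : ∀ x, 0 < G.degree x) :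
    nS G σ * nP G = - nS G σ := by
  have h := congrArg Matrix.transpose (nP_mul_nS hσ hd)
  rwa [Matrix.transpose_mul, Matrix.transpose_neg, nP_symm, nS_symm] at h

theorem nS_mul_nS [Nonempty V] (hd : ∀ x, 0 < G.degree x) : nS G σ * nS G σ = nS G σ := by
  ext x y
  rw [Matrix.mul_apply]
  have hv := vol_pos hd
  have h : ∑ z, nψ G σ z * nψ G σ z = vol G := ψψ
  calc ∑ z, nS G σ x z * nS G σ z y =
      (∑ z, nψ G σ z * nψ G σ z) * (nψ G σ x * nψ G σ y / vol G ^ 2) := by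
        rw [sum_mul]
        refine sum_congr rfl fun z _ => ?_
        unfold nS
        field_simp
    _ = nS G σ x y := by
        rw [h]
        unfold nS
        field_simp

theorem nJ_mul_nS (hσ : ∀ x y, G.Adj x y → σ x ≠ σ y) (hd : ∀ x, 0 < G.degree x) :
    nJ G * nS G σ = 0 := by
  ext x y
  rw [Matrix.mul_apply]
  have h : ∑ z, nφ G z * nψ G σ z = 0 := φψ hσ hd
  calc ∑ z, nJ G x z * nS G σ z y =
      (∑ z, nφ G z * nψ G σ z) * (nφ G x * nψ G σ y / vol G ^ 2) := by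
        rw [sum_mul]
        refine sum_congr rfl fun z _ => ?_
        unfold nS nJ
        ring
    _ = (0 : Matrix V V ℝ) x y := by
        rw [h]
        simp

theorem nS_mul_nJ (hσ : ∀ x y, G.Adj x y → σ x ≠ σ y) (hd : ∀ x, 0 < G.degree x) :
    nS G σ * nJ G = 0 := by
  have h := congrArg Matrix.transpose (nJ_mul_nS hσ hd)
  rwa [Matrix.transpose_mul, Matrix.transpose_zero, nJ_symm, nS_symm] at h

theorem nP_pow_mul_nS (hσ : ∀ x y, G.Adj x y → σ x ≠ σ y) (hd : ∀ x, 0 < G.degree x) (m : ℕ) :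
    nP G ^ m * nS G σ = (-1 : ℝ) ^ m • nS G σ := by
  induction m with
  | zero => simp
  | succ m ih =>
    rw [pow_succ, Matrix.mul_assoc, nP_mul_nS hσ hd, Matrix.mul_neg, ih, pow_succ]
    simp

theorem nR_pow [Nonempty V] (hσ : ∀ x y, G.Adj x y → σ x ≠ σ y) (hd : ∀ x, 0 < G.degree x)
    (m : ℕ) : (nP G - nJ G + nS G σ) ^ (m + 1) =
      nP G ^ (m + 1) - nJ G - (-1 : ℝ) ^ (m + 1) • nS G σ := by
  induction m with
  | zero => simp
  | succ m ih =>
    rw [pow_succ, ih]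
    simp only [Matrix.sub_mul, Matrix.mul_sub, Matrix.mul_add, Matrix.smul_mul,
      nP_pow_mul_nJ hd, nP_pow_mul_nS hσ hd, nJ_mul_nP hd, nJ_mul_nJ hd, nJ_mul_nS hσ hd,
      nS_mul_nP hσ hd, nS_mul_nJ hσ hd, nS_mul_nS hd, ← pow_succ]
    rw [pow_succ (-1 : ℝ) (m + 1)]
    simp only [smul_neg, mul_neg, mul_one, neg_smul, smul_zero]
    abel

/-- The form of the matrix. -/
theorem form_R [Nonempty V] (hσ : ∀ x y, G.Adj x y → σ x ≠ σ y) {t Δ : ℝ} (ht : 0 < t)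
    (hΔ : ∀ x, (G.degree x : ℝ) ≤ Δ) (hΔ0 : 0 < Δ) (hd : ∀ x, t ≤ (G.degree x : ℝ))
    (hexp : ∀ X : Finset V, 2 * X.card ≤ Fintype.card V → t * X.card ≤ ar G X Xᶜ) (v : V → ℝ) :
    |v ⬝ᵥ ((nP G - nJ G + nS G σ) *ᵥ v)| ≤ (1 - t ^ 2 / (2 * Δ ^ 2)) * (v ⬝ᵥ v) := by
  have hd' : ∀ x, 0 < G.degree x := by
    intro x
    have : (0 : ℝ) < G.degree x := lt_of_lt_of_le ht (hd x)
    exact_mod_cast this
  have hv := vol_pos hd'
  have hφψ := φψ hσ hd'
  have hψφ : nψ G σ ⬝ᵥ nφ G = 0 := by rw [dotProduct_comm]; exact hφψ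
  set c := (nφ G ⬝ᵥ v) / vol G with hc
  set d := (nψ G σ ⬝ᵥ v) / vol G with hdd
  set w : V → ℝ := v - c • nφ G - d • nψ G σ with hw
  have hφw : nφ G ⬝ᵥ w = 0 := by
    rw [hw, dotProduct_sub, dotProduct_sub, dotProduct_smul, dotProduct_smul, φφ, hφψ,
      smul_eq_mul, smul_eq_mul, hc]
    field_simp
    ring
  have hψw : nψ G σ ⬝ᵥ w = 0 := by
    rw [hw, dotProduct_sub, dotProduct_sub, dotProduct_smul, dotProduct_smul, ψψ, hψφ,
      smul_eq_mul, smul_eq_mul, hdd]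
    field_simp
    ring
  have hvw : v = w + c • nφ G + d • nψ G σ := by
    rw [hw]
    abel
  have hQv : (nP G - nJ G + nS G σ) *ᵥ v = nP G *ᵥ w := by
    rw [Matrix.add_mulVec, Matrix.sub_mulVec, nJ_mulVec, nS_mulVec, ← hc, ← hdd]
    conv_lhs => rw [hvw]
    rw [Matrix.mulVec_add, Matrix.mulVec_add, Matrix.mulVec_smul, Matrix.mulVec_smul,
      nP_mul_φ hd', nP_mul_ψ hσ hd', smul_neg]
    abel
  have hφP : nφ G ⬝ᵥ (nP G *ᵥ w) = 0 := by
    rw [Matrix.dotProduct_mulVec, ← Matrix.mulVec_transpose, nP_symm, nP_mul_φ hd', hφw]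
  have hψP : nψ G σ ⬝ᵥ (nP G *ᵥ w) = 0 := by
    rw [Matrix.dotProduct_mulVec, ← Matrix.mulVec_transpose, nP_symm, nP_mul_ψ hσ hd',
      neg_dotProduct, hψw, neg_zero]
  have h1 : v ⬝ᵥ ((nP G - nJ G + nS G σ) *ᵥ v) = w ⬝ᵥ (nP G *ᵥ w) := by
    rw [hQv]
    conv_lhs => rw [hvw]
    rw [add_dotProduct, add_dotProduct, smul_dotProduct, smul_dotProduct, hφP, hψP]
    simp
  have h2 : w ⬝ᵥ w ≤ v ⬝ᵥ v := by
    have hwφ : w ⬝ᵥ nφ G = 0 := by rw [dotProduct_comm]; exact hφw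
    have hwψ : w ⬝ᵥ nψ G σ = 0 := by rw [dotProduct_comm]; exact hψw
    have : v ⬝ᵥ v = w ⬝ᵥ w + c ^ 2 * vol G + d ^ 2 * vol G := by
      conv_lhs => rw [hvw]
      simp only [add_dotProduct, dotProduct_add, smul_dotProduct, dotProduct_smul, hφw, hψw, hwφ,
        hwψ, φφ, ψψ, hφψ, hψφ, smul_eq_mul]
      ring
    rw [this]
    have h3 : 0 ≤ c ^ 2 * vol G := by positivity
    have h4 : 0 ≤ d ^ 2 * vol G := by positivity
    linarith
  set f : V → ℝ := fun x => w x / nφ G x with hf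
  set f' : V → ℝ := fun x => sg σ x * f x with hf'
  have hf0 : ∑ x, (G.degree x : ℝ) * f x = 0 := by
    rw [← hφw, dotProduct]
    refine sum_congr rfl fun x _ => ?_
    have := nφ_pos hd' x
    rw [hf, ← nφ_sq]
    field_simp
  have hf0' : ∑ x, (G.degree x : ℝ) * f' x = 0 := by
    rw [← hψw, dotProduct]
    refine sum_congr rfl fun x _ => ?_
    have := nφ_pos hd' x
    rw [hf', hf, ← nφ_sq]
    unfold nψ
    field_simp
  have e1 : ∀ g : V → ℝ, ∑ x, ∑ y, ad G x y * (g x - g y) ^ 2 =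
      2 * ∑ x, (G.degree x : ℝ) * g x ^ 2 - 2 * ∑ x, ∑ y, ad G x y * (g x * g y) := by
    intro g
    have : ∑ x, ∑ y, ad G x y * (g x - g y) ^ 2 = ∑ x, ∑ y, ad G x y * g x ^ 2 +
        ∑ x, ∑ y, ad G x y * g y ^ 2 - 2 * ∑ x, ∑ y, ad G x y * (g x * g y) := by
      simp only [mul_sum, ← sum_add_distrib, ← sum_sub_distrib]
      refine sum_congr rfl fun x _ => sum_congr rfl fun y _ => ?_
      ring
    rw [this, sum_ad_left G (fun x => g x ^ 2), sum_ad_right G (fun x => g x ^ 2)]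
    ring
  have e2 : ∀ g : V → ℝ, ∑ x, (G.degree x : ℝ) * g x = 0 →
      ∑ x, ∑ y, ad G x y * (g x * g y) ≤
        (1 - t ^ 2 / (2 * Δ ^ 2)) * ∑ x, (G.degree x : ℝ) * g x ^ 2 := by
    intro g hg
    have h3 := upper_end ht.le hΔ hexp hg
    rw [e1] at h3
    have hd2 : 0 < 2 * Δ ^ 2 := by positivity
    have h5 : t ^ 2 / (2 * Δ ^ 2) * ∑ x, (G.degree x : ℝ) * g x ^ 2 ≤
        ∑ x, (G.degree x : ℝ) * g x ^ 2 - ∑ x, ∑ y, ad G x y * (g x * g y) := by
      rw [div_mul_eq_mul_div, div_le_iff₀ hd2]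
      linarith
    linarith
  have h3 := e2 f hf0
  have h3' := e2 f' hf0'
  have h4 : ∑ x, (G.degree x : ℝ) * f x ^ 2 = w ⬝ᵥ w := by
    rw [dotProduct]
    refine sum_congr rfl fun x _ => ?_
    have := nφ_pos hd' x
    rw [hf, ← nφ_sq]
    field_simp
  have h4' : ∑ x, (G.degree x : ℝ) * f' x ^ 2 = w ⬝ᵥ w := by
    rw [← h4]
    refine sum_congr rfl fun x _ => ?_
    rw [hf']
    calc (G.degree x : ℝ) * (sg σ x * f x) ^ 2 =
        (sg σ x * sg σ x) * ((G.degree x : ℝ) * f x ^ 2) := by ring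
      _ = _ := by rw [sg_sq, one_mul]
  have h5 : ∑ x, ∑ y, ad G x y * (f x * f y) = w ⬝ᵥ (nP G *ᵥ w) := by
    rw [dotProduct]
    refine sum_congr rfl fun x _ => ?_
    rw [Matrix.mulVec, dotProduct, mul_sum]
    refine sum_congr rfl fun y _ => ?_
    have hx := nφ_pos hd' x
    have hy := nφ_pos hd' y
    have e2 : nP G x y = ad G x y / (nφ G x * nφ G y) := rfl
    rw [hf, e2]
    field_simp
  have h5' : ∑ x, ∑ y, ad G x y * (f' x * f' y) = - (w ⬝ᵥ (nP G *ᵥ w)) := by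
    rw [← h5, ← sum_neg_distrib]
    refine sum_congr rfl fun x _ => ?_
    rw [← sum_neg_distrib]
    refine sum_congr rfl fun y _ => ?_
    rw [hf']
    calc ad G x y * (sg σ x * f x * (sg σ y * f y)) =
        (ad G x y * sg σ y) * (sg σ x * (f x * f y)) := by ring
      _ = - ((sg σ x * sg σ x) * (ad G x y * (f x * f y))) := by
          rw [ad_sg hσ]
          ring
      _ = _ := by rw [sg_sq, one_mul]
  rw [h4, h5] at h3
  rw [h4', h5'] at h3'
  rw [h1]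
  have hθ : 0 ≤ 1 - t ^ 2 / (2 * Δ ^ 2) := by
    have h6 : t ≤ Δ := by
      obtain ⟨x⟩ := ‹Nonempty V›
      exact (hd x).trans (hΔ x)
    rw [sub_nonneg, div_le_one (by positivity)]
    nlinarith
  have h6 : |w ⬝ᵥ (nP G *ᵥ w)| ≤ (1 - t ^ 2 / (2 * Δ ^ 2)) * (w ⬝ᵥ w) := by
    rw [abs_le]
    constructor <;> linarith
  exact h6.trans (mul_le_mul_of_nonneg_left h2 hθ)

/-- **Uniform mixing up to parity.** -/
theorem mixing_b [Nonempty V] (hσ : ∀ x y, G.Adj x y → σ x ≠ σ y) {k : ℕ} (hk : 1 ≤ k)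
    (hg : ∀ (v : V) (p : G.Walk v v), p.IsCycle → 2 * k < p.length)
    {t Δ : ℝ} (ht : 0 < t) (hΔ : ∀ x, (G.degree x : ℝ) ≤ Δ)
    (hΔ0 : 0 < Δ) (hd : ∀ x, t ≤ (G.degree x : ℝ))
    (hexp : ∀ X : Finset V, 2 * X.card ≤ Fintype.card V → t * X.card ≤ ar G X Xᶜ)
    {l : ℕ} (hl : 2 * k ≤ l) (x y : V) :
    |(nP G ^ l) x y - (1 + (-1) ^ l * (sg σ x * sg σ y)) * (nφ G x * nφ G y / vol G)| ≤
      (1 - t ^ 2 / (2 * Δ ^ 2)) ^ (l - 2 * k) * ((4 * Δ) ^ k / t ^ (2 * k)) := by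
  have hd' : ∀ x, 0 < G.degree x := by
    intro x
    have : (0 : ℝ) < G.degree x := lt_of_lt_of_le ht (hd x)
    exact_mod_cast this
  have hherm : (nP G - nJ G + nS G σ).IsHermitian := by
    rw [Matrix.IsHermitian, Matrix.conjTranspose_eq_transpose_of_trivial, Matrix.transpose_add,
      Matrix.transpose_sub, nP_symm, nJ_symm, nS_symm]
  have hB : ∀ x, ((nP G - nJ G + nS G σ) ^ (2 * k)) x x ≤ (4 * Δ) ^ k / t ^ (2 * k) := by
    intro x
    have e1 : (nP G - nJ G + nS G σ) ^ (2 * k) = nP G ^ (2 * k) - nJ G - nS G σ := by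
      have := nR_pow hσ hd' (2 * k - 1)
      rw [show 2 * k - 1 + 1 = 2 * k by omega] at this
      rw [this, pow_mul]
      simp
    rw [e1, Matrix.sub_apply, Matrix.sub_apply]
    have hv := vol_pos hd'
    have e2 : 0 ≤ nJ G x x := by
      unfold nJ
      exact div_nonneg (mul_self_nonneg _) hv.le
    have e2' : 0 ≤ nS G σ x x := by
      unfold nS
      exact div_nonneg (mul_self_nonneg _) hv.le
    have e3 := nP_pow_le ht hd (2 * k) x x
    have e4 := closed_walks G hg hΔ0 hΔ x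
    have e5 : (nP G ^ (2 * k)) x x ≤ (4 * Δ) ^ k / t ^ (2 * k) := by
      rw [le_div_iff₀ (by positivity)]
      linarith
    linarith
  have h := entry_bound hherm (form_R hσ ht hΔ hΔ0 hd hexp) hB hl x y
  have e1 : (nP G - nJ G + nS G σ) ^ l = nP G ^ l - nJ G - (-1 : ℝ) ^ l • nS G σ := by
    have := nR_pow hσ hd' (l - 1)
    rwa [show l - 1 + 1 = l by omega] at this
  rw [e1, Matrix.sub_apply, Matrix.sub_apply, Matrix.smul_apply, smul_eq_mul] at h
  refine le_trans (le_of_eq ?_) h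
  congr 1
  unfold nJ nS nψ
  ring

end General

end Pool.Agent.J4.H75.GF
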