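import Pool.Agent.J4.H75.GE.Opt

/-!
# Inequalities of Cheeger type at both ends of the spectrum
-/

set_option autoImplicit false
set_option linter.unusedSectionVars false

open Finset

namespace Pool.Agent.J4.H75.GF

open Pool.Agent.J4.H75.GE

variable {V : Type*} [Fintype V] [DecidableEq V]

/-- The cost of a pair. -/
def qc (τ : V → V → Bool) (h : V → ℝ) (x y : V) : ℝ :=
  if τ x y = true then h x + h y else |h x - h y|

theorem qc_nonneg (τ : V → V → Bool) {h : V → ℝ} (hh : ∀ x, 0 ≤ h x) (x y : V) :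
    0 ≤ qc τ h x y := by
  unfold qc
  split_ifs
  · exact add_nonneg (hh x) (hh y)
  · exact abs_nonneg _

/-- Layers of a nonnegative function. -/
theorem layers (w : V → V → ℝ) (hw : ∀ x y, 0 ≤ w x y) (τ : V → V → Bool) (t : ℝ)
    (P : Finset V → Prop) (hP : ∀ S T : Finset V, T ⊆ S → P S → P T)
    (hc : ∀ S : Finset V, P S →
      t * S.card ≤ ∑ x, ∑ y, w x y * qc τ (fun z => if z ∈ S then 1 else 0) x y) :
    ∀ (n : ℕ) (h : V → ℝ), (∀ x, 0 ≤ h x) → P (univ.filter fun x => h x ≠ 0) →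
      (univ.filter fun x => h x ≠ 0).card = n →
      t * ∑ x, h x ≤ ∑ x, ∑ y, w x y * qc τ h x y := by
  intro n
  induction n using Nat.strong_induction_on with
  | _ n ih =>
    intro h hh hPS hn
    set S := univ.filter fun x => h x ≠ 0 with hS
    have hSm : ∀ x, x ∈ S ↔ h x ≠ 0 := fun x => by simp [hS]
    rcases S.eq_empty_or_nonempty with he | hne
    · have h0 : ∀ x, h x = 0 := by
        intro x
        by_contra hx
        have : x ∈ S := (hSm x).2 hx
        rw [he] at this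
        simp at this
      have : ∑ x, h x = 0 := sum_eq_zero fun x _ => h0 x
      rw [this, mul_zero]
      exact sum_nonneg fun x _ => sum_nonneg fun y _ => mul_nonneg (hw x y) (qc_nonneg τ hh x y)
    · obtain ⟨x0, hx0, hmin⟩ := exists_min_image S h hne
      set m0 := h x0 with hm0
      have hm0' : 0 < m0 := lt_of_le_of_ne (hh x0) (Ne.symm ((hSm x0).1 hx0))
      set h' : V → ℝ := fun x => h x - m0 * (if x ∈ S then 1 else 0) with hh'
      have hin : ∀ x, x ∈ S → h' x = h x - m0 ∧ 0 ≤ h x - m0 := by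
        intro x hx
        refine ⟨by simp [hh', hx], ?_⟩
        have := hmin x hx
        linarith
      have hout : ∀ x, x ∉ S → h' x = 0 ∧ h x = 0 := by
        intro x hx
        have : h x = 0 := by
          by_contra hx'
          exact hx ((hSm x).2 hx')
        exact ⟨by simp [hh', hx, this], this⟩
      have hnn : ∀ x, 0 ≤ h' x := by
        intro x
        by_cases hx : x ∈ S
        · rw [(hin x hx).1]; exact (hin x hx).2
        · rw [(hout x hx).1]
      have hsub : (univ.filter fun x => h' x ≠ 0) ⊂ S := by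
        rw [Finset.ssubset_iff_of_subset]
        · refine ⟨x0, hx0, ?_⟩
          rw [mem_filter]
          push Not
          intro _
          rw [(hin x0 hx0).1]
          ring
        · intro x hx
          rw [mem_filter] at hx
          by_contra hxS
          exact hx.2 (hout x hxS).1
      have h1 := ih _ (by rw [← hn]; exact card_lt_card hsub) h' hnn (hP _ _ hsub.1 hPS) rfl
      have h2 := hc S hPS
      have hid : ∀ x y, qc τ h x y =
          m0 * qc τ (fun z => if z ∈ S then 1 else 0) x y + qc τ h' x y := by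
        intro x y
        unfold qc
        by_cases hx : x ∈ S <;> by_cases hy : y ∈ S
        · rw [(hin x hx).1, (hin y hy).1]
          simp only [hx, hy, if_true]
          split_ifs
          · ring
          · simp
        · rw [(hin x hx).1, (hout y hy).1, (hout y hy).2]
          simp only [hx, hy, if_true, if_false]
          split_ifs
          · ring
          · rw [sub_zero, sub_zero, sub_zero, abs_of_nonneg (hh x), abs_of_nonneg (hin x hx).2]
            simp
        · rw [(hout x hx).1, (hin y hy).1, (hout x hx).2]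
          simp only [hx, hy, if_true, if_false]
          split_ifs
          · ring
          · rw [zero_sub, zero_sub, zero_sub, abs_neg, abs_neg, abs_neg, abs_of_nonneg (hh y),
              abs_of_nonneg (hin y hy).2]
            simp
        · rw [(hout x hx).1, (hout y hy).1, (hout x hx).2, (hout y hy).2]
          simp only [hx, hy, if_false]
          split_ifs <;> simp
      have h3 : ∑ x, h x = m0 * S.card + ∑ x, h' x := by
        have : ∑ x, h' x = ∑ x, h x - m0 * S.card := by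
          have e0 : (univ.filter fun x => x ∈ S) = S := by ext x; simp
          rw [hh', sum_sub_distrib, ← mul_sum, sum_boole, e0]
        rw [this]
        ring
      have h4 : ∑ x, ∑ y, w x y * qc τ h x y =
          m0 * (∑ x, ∑ y, w x y * qc τ (fun z => if z ∈ S then 1 else 0) x y) +
            ∑ x, ∑ y, w x y * qc τ h' x y := by
        rw [mul_sum, ← sum_add_distrib]
        refine sum_congr rfl fun x _ => ?_
        rw [mul_sum, ← sum_add_distrib]
        refine sum_congr rfl fun y _ => ?_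
        rw [hid x y]
        ring
      rw [h3, h4]
      have h5 := mul_le_mul_of_nonneg_left h2 hm0'.le
      linarith

variable (G : SimpleGraph V) [DecidableRel G.Adj]

/-- The indicator of adjacency. -/
def ad (x y : V) : ℝ := if G.Adj x y then 1 else 0

theorem ad_nonneg (x y : V) : 0 ≤ ad G x y := by
  unfold ad
  split_ifs <;> norm_num

theorem ad_sq (x y : V) : ad G x y * ad G x y = ad G x y := by
  unfold ad
  split_ifs <;> norm_num

theorem ad_comm (x y : V) : ad G x y = ad G y x := by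
  unfold ad
  simp only [G.adj_comm]

theorem sum_ad (x : V) : ∑ y, ad G x y = G.degree x := by
  unfold ad
  rw [sum_boole, ← G.card_neighborFinset_eq_degree]
  congr 2
  ext y
  simp

theorem ar_ad (X Y : Finset V) :
    ar G X Y = ∑ x, ∑ y, ad G x y * (if x ∈ X ∧ y ∈ Y then 1 else 0) := by
  unfold ar
  rw [← sum_filter_add_sum_filter_not univ (fun x => x ∈ X)]
  have e1 : ∑ x with x ∉ X, ∑ y, ad G x y * (if x ∈ X ∧ y ∈ Y then (1 : ℝ) else 0) = 0 := by
    apply sum_eq_zero
    intro x hx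
    rw [mem_filter] at hx
    apply sum_eq_zero
    intro y _
    rw [if_neg (fun h => hx.2 h.1), mul_zero]
  rw [e1, add_zero]
  have e2 : (univ.filter fun x => x ∈ X) = X := by ext; simp
  rw [e2]
  refine sum_congr rfl fun x hx => ?_
  rw [← sum_filter_add_sum_filter_not univ (fun y => y ∈ Y)]
  have e3 : ∑ y with y ∉ Y, ad G x y * (if x ∈ X ∧ y ∈ Y then (1 : ℝ) else 0) = 0 := by
    apply sum_eq_zero
    intro y hy
    rw [mem_filter] at hy
    rw [if_neg (fun h => hy.2 h.2), mul_zero]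
  rw [e3, add_zero]
  have e4 : (univ.filter fun y => y ∈ Y) = Y := by ext; simp
  rw [e4]
  refine sum_congr rfl fun y hy => ?_
  rw [show (if x ∈ X ∧ y ∈ Y then (1 : ℝ) else 0) = 1 from if_pos ⟨hx, hy⟩, mul_one]
  rfl

/-- Cauchy-Schwarz over the arcs. -/
theorem cs (a b : V → V → ℝ) :
    (∑ x, ∑ y, ad G x y * (a x y * b x y)) ^ 2 ≤
      (∑ x, ∑ y, ad G x y * a x y ^ 2) * ∑ x, ∑ y, ad G x y * b x y ^ 2 := by
  have h := sum_mul_sq_le_sq_mul_sq (univ : Finset (V × V))
    (fun p => ad G p.1 p.2 * a p.1 p.2) (fun p => ad G p.1 p.2 * b p.1 p.2)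
  rw [Fintype.sum_prod_type, Fintype.sum_prod_type, Fintype.sum_prod_type] at h
  refine le_trans (le_of_eq ?_) (h.trans (le_of_eq ?_))
  · congr 1
    refine sum_congr rfl fun x _ => sum_congr rfl fun y _ => ?_
    calc ad G x y * (a x y * b x y) = (ad G x y * ad G x y) * (a x y * b x y) := by rw [ad_sq]
      _ = _ := by ring
  · congr 1
    · refine sum_congr rfl fun x _ => sum_congr rfl fun y _ => ?_
      calc (ad G x y * a x y) ^ 2 = (ad G x y * ad G x y) * a x y ^ 2 := by ring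
        _ = _ := by rw [ad_sq]
    · refine sum_congr rfl fun x _ => sum_congr rfl fun y _ => ?_
      calc (ad G x y * b x y) ^ 2 = (ad G x y * ad G x y) * b x y ^ 2 := by ring
        _ = _ := by rw [ad_sq]

theorem sum_ad_left (g : V → ℝ) : ∑ x, ∑ y, ad G x y * g x = ∑ x, (G.degree x : ℝ) * g x := by
  refine sum_congr rfl fun x _ => ?_
  rw [← sum_mul, sum_ad]

theorem sum_ad_right (g : V → ℝ) : ∑ x, ∑ y, ad G x y * g y = ∑ x, (G.degree x : ℝ) * g x := by
  rw [sum_comm, ← sum_ad_left]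
  refine sum_congr rfl fun x _ => sum_congr rfl fun y _ => ?_
  rw [ad_comm]

variable {G}

/-- The common step. -/
theorem from_layers {t Δ : ℝ} (ht : 0 ≤ t) (hΔ : ∀ x, (G.degree x : ℝ) ≤ Δ) {f : V → ℝ}
    {a : V → V → ℝ}
    (h : 2 * t * ∑ x, f x ^ 2 ≤ ∑ x, ∑ y, ad G x y * (|a x y| * (|f x| + |f y|))) :
    t ^ 2 * ∑ x, f x ^ 2 ≤ Δ * ∑ x, ∑ y, ad G x y * a x y ^ 2 := by
  have hS : 0 ≤ ∑ x, f x ^ 2 := sum_nonneg fun x _ => sq_nonneg _
  have hE : 0 ≤ ∑ x, ∑ y, ad G x y * a x y ^ 2 :=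
    sum_nonneg fun x _ => sum_nonneg fun y _ => mul_nonneg (ad_nonneg G x y) (sq_nonneg _)
  rcases hS.eq_or_lt with h0 | h0
  · rw [← h0, mul_zero]
    rcases isEmpty_or_nonempty V with hV | ⟨⟨x⟩⟩
    · simp
    · have : 0 ≤ Δ := le_trans (Nat.cast_nonneg _) (hΔ x)
      positivity
  have h1 := cs G (fun x y => |a x y|) (fun x y => |f x| + |f y|)
  have h2 : ∑ x, ∑ y, ad G x y * (|f x| + |f y|) ^ 2 ≤ 4 * Δ * ∑ x, f x ^ 2 := by
    calc ∑ x, ∑ y, ad G x y * (|f x| + |f y|) ^ 2
        ≤ ∑ x, ∑ y, (2 * (ad G x y * f x ^ 2) + 2 * (ad G x y * f y ^ 2)) := by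
          refine sum_le_sum fun x _ => sum_le_sum fun y _ => ?_
          have e1 : (|f x| + |f y|) ^ 2 ≤ 2 * f x ^ 2 + 2 * f y ^ 2 := by
            nlinarith [sq_nonneg (|f x| - |f y|), sq_abs (f x), sq_abs (f y)]
          have := mul_le_mul_of_nonneg_left e1 (ad_nonneg G x y)
          linarith
      _ = 4 * ∑ x, (G.degree x : ℝ) * f x ^ 2 := by
          simp only [sum_add_distrib, ← mul_sum]
          rw [sum_ad_left G (fun x => f x ^ 2), sum_ad_right G (fun x => f x ^ 2)]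
          ring
      _ ≤ 4 * ∑ x, Δ * f x ^ 2 := by
          have : ∑ x, (G.degree x : ℝ) * f x ^ 2 ≤ ∑ x, Δ * f x ^ 2 :=
            sum_le_sum fun x _ => mul_le_mul_of_nonneg_right (hΔ x) (sq_nonneg _)
          linarith
      _ = 4 * Δ * ∑ x, f x ^ 2 := by rw [← mul_sum]; ring
  simp only [sq_abs] at h1
  have h3 : (2 * t * ∑ x, f x ^ 2) ^ 2 ≤
      (∑ x, ∑ y, ad G x y * a x y ^ 2) * (4 * Δ * ∑ x, f x ^ 2) := by
    calc (2 * t * ∑ x, f x ^ 2) ^ 2
        ≤ (∑ x, ∑ y, ad G x y * (|a x y| * (|f x| + |f y|))) ^ 2 :=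
          pow_le_pow_left₀ (by positivity) h 2
      _ ≤ _ := h1
      _ ≤ _ := mul_le_mul_of_nonneg_left h2 hE
  have h4 : (4 * ∑ x, f x ^ 2) * (t ^ 2 * ∑ x, f x ^ 2) ≤
      (4 * ∑ x, f x ^ 2) * (Δ * ∑ x, ∑ y, ad G x y * a x y ^ 2) := by
    nlinarith
  exact le_of_mul_le_mul_left h4 (by positivity)

theorem one_sided {t Δ : ℝ} (ht : 0 ≤ t) (hΔ : ∀ x, (G.degree x : ℝ) ≤ Δ)
    (hexp : ∀ X : Finset V, 2 * X.card ≤ Fintype.card V → t * X.card ≤ ar G X Xᶜ)
    {g : V → ℝ} (hg : 2 * (univ.filter fun x => g x ≠ 0).card ≤ Fintype.card V) :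
    t ^ 2 * ∑ x, g x ^ 2 ≤ Δ * ∑ x, ∑ y, ad G x y * (g x - g y) ^ 2 := by
  apply from_layers ht hΔ
  have hS : (univ.filter fun x => g x ^ 2 ≠ 0) = univ.filter fun x => g x ≠ 0 := by
    ext x
    simp
  have h := layers (ad G) (ad_nonneg G) (fun _ _ => false) (2 * t)
    (fun S => 2 * S.card ≤ Fintype.card V)
    (fun S T hT hS => le_trans (Nat.mul_le_mul_left 2 (card_le_card hT)) hS)
    (by
      intro S hS
      have h1 := hexp S hS
      have h2 := h1
      rw [ar_comm] at h2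
      rw [ar_ad] at h1 h2
      have h3 : ∑ x, ∑ y, ad G x y *
          qc (fun _ _ => false) (fun z => if z ∈ S then (1 : ℝ) else 0) x y =
          ∑ x, ∑ y, ad G x y * (if x ∈ S ∧ y ∈ Sᶜ then 1 else 0) +
            ∑ x, ∑ y, ad G x y * (if x ∈ Sᶜ ∧ y ∈ S then 1 else 0) := by
        rw [← sum_add_distrib]
        refine sum_congr rfl fun x _ => ?_
        rw [← sum_add_distrib]
        refine sum_congr rfl fun y _ => ?_
        rw [← mul_add]
        congr 1
        unfold qc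
        simp only [mem_compl]
        by_cases hx : x ∈ S <;> by_cases hy : y ∈ S <;> simp [hx, hy]
      rw [h3]
      linarith)
    _ (fun x => g x ^ 2) (fun x => sq_nonneg _) (by rw [hS]; exact hg) rfl
  refine h.trans (sum_le_sum fun x _ => sum_le_sum fun y _ =>
    mul_le_mul_of_nonneg_left ?_ (ad_nonneg G x y))
  unfold qc
  simp only [Bool.false_eq_true, if_false]
  have e1 : g x ^ 2 - g y ^ 2 = (g x - g y) * (g x + g y) := by ring
  rw [e1, abs_mul]
  exact mul_le_mul_of_nonneg_left (abs_add_le _ _) (abs_nonneg _)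

theorem signed {t Δ : ℝ} (ht : 0 ≤ t) (hΔ : ∀ x, (G.degree x : ℝ) ≤ Δ)
    (hrob : ∀ L R : Finset V, Disjoint L R →
      t * (L ∪ R).card ≤ ar G L L + ar G R R + ar G (L ∪ R) (L ∪ R)ᶜ) (f : V → ℝ) :
    t ^ 2 * ∑ x, f x ^ 2 ≤ Δ * ∑ x, ∑ y, ad G x y * (f x + f y) ^ 2 := by
  apply from_layers ht hΔ
  have h := layers (ad G) (ad_nonneg G) (fun x y => decide (0 ≤ f x ↔ 0 ≤ f y)) (2 * t)
    (fun _ => True) (fun _ _ _ _ => trivial)
    (by
      intro S _
      have hLR : (S.filter fun x => 0 ≤ f x) ∪ (S.filter fun x => ¬ 0 ≤ f x) = S :=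
        filter_union_filter_not_eq _ _
      have h1 := hrob (S.filter fun x => 0 ≤ f x) (S.filter fun x => ¬ 0 ≤ f x)
        (disjoint_filter_filter_not _ _ _)
      rw [hLR] at h1
      have h2 := ar_comm G S Sᶜ
      rw [ar_ad, ar_ad, ar_ad] at h1
      rw [ar_ad, ar_ad] at h2
      have h3 : ∑ x, ∑ y, ad G x y * qc (fun x y => decide (0 ≤ f x ↔ 0 ≤ f y))
          (fun z => if z ∈ S then (1 : ℝ) else 0) x y =
          2 * (∑ x, ∑ y, ad G x y * (if x ∈ S.filter (fun x => 0 ≤ f x) ∧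
            y ∈ S.filter (fun x => 0 ≤ f x) then 1 else 0)) +
          2 * (∑ x, ∑ y, ad G x y * (if x ∈ S.filter (fun x => ¬ 0 ≤ f x) ∧
            y ∈ S.filter (fun x => ¬ 0 ≤ f x) then 1 else 0)) +
          (∑ x, ∑ y, ad G x y * (if x ∈ S ∧ y ∈ Sᶜ then 1 else 0) +
            ∑ x, ∑ y, ad G x y * (if x ∈ Sᶜ ∧ y ∈ S then 1 else 0)) := by
        rw [mul_sum, mul_sum, ← sum_add_distrib, ← sum_add_distrib, ← sum_add_distrib]
        refine sum_congr rfl fun x _ => ?_
        rw [mul_sum, mul_sum, ← sum_add_distrib, ← sum_add_distrib, ← sum_add_distrib]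
        refine sum_congr rfl fun y _ => ?_
        have e1 : ∀ a b c d e : ℝ, 2 * (a * b) + 2 * (a * c) + (a * d + a * e) =
          a * (2 * b + 2 * c + (d + e)) := by intros; ring
        rw [e1]
        congr 1
        unfold qc
        simp only [mem_compl, mem_filter, decide_eq_true_eq]
        by_cases hx : x ∈ S <;> by_cases hy : y ∈ S <;> by_cases fx : 0 ≤ f x <;>
          by_cases fy : 0 ≤ f y <;> simp [hx, hy, fx, fy] <;> norm_num
      rw [h3]
      linarith)
    _ (fun x => f x ^ 2) (fun x => sq_nonneg _) trivial rfl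
  refine h.trans (sum_le_sum fun x _ => sum_le_sum fun y _ =>
    mul_le_mul_of_nonneg_left ?_ (ad_nonneg G x y))
  unfold qc
  split_ifs with hs
  · have hs' : (0 ≤ f x ↔ 0 ≤ f y) := by simpa using hs
    have e1 : |f x + f y| = |f x| + |f y| := by
      by_cases fx : 0 ≤ f x
      · have fy := hs'.1 fx
        rw [abs_of_nonneg fx, abs_of_nonneg fy, abs_of_nonneg (add_nonneg fx fy)]
      · have fy : ¬ 0 ≤ f y := fun h => fx (hs'.2 h)
        push Not at fx fy
        rw [abs_of_neg fx, abs_of_neg fy, abs_of_neg (add_neg fx fy)]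
        ring
    rw [e1]
    nlinarith [sq_abs (f x), sq_abs (f y), mul_nonneg (abs_nonneg (f x)) (abs_nonneg (f y))]
  · have e1 : f x ^ 2 - f y ^ 2 = (f x + f y) * (f x - f y) := by ring
    rw [e1, abs_mul]
    exact mul_le_mul_of_nonneg_left (abs_sub _ _) (abs_nonneg _)

/-- A median. -/
theorem exists_median [Nonempty V] (f : V → ℝ) :
    ∃ μ : ℝ, 2 * (univ.filter fun x => μ < f x).card ≤ Fintype.card V ∧
      2 * (univ.filter fun x => f x < μ).card ≤ Fintype.card V := by
  set A := univ.filter fun x => 2 * (univ.filter fun y => f x < f y).card ≤ Fintype.card V with hA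
  have hAne : A.Nonempty := by
    obtain ⟨x, -, hx⟩ := exists_max_image (univ : Finset V) f univ_nonempty
    refine ⟨x, ?_⟩
    rw [hA, mem_filter]
    refine ⟨mem_univ _, ?_⟩
    have : (univ.filter fun y => f x < f y) = ∅ := by
      rw [filter_eq_empty_iff]
      intro y hy
      exact not_lt.2 (hx y hy)
    rw [this]
    simp
  obtain ⟨x0, hx0, hmin⟩ := exists_min_image A f hAne
  have hx0' := hx0
  rw [hA, mem_filter] at hx0'
  refine ⟨f x0, hx0'.2, ?_⟩
  by_contra hcon
  push Not at hcon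
  have hBne : (univ.filter fun x => f x < f x0).Nonempty := by
    rw [nonempty_iff_ne_empty]
    intro h
    rw [h] at hcon
    simp at hcon
  obtain ⟨x1, hx1, hmax⟩ := exists_max_image _ f hBne
  rw [mem_filter] at hx1
  have hx1A : x1 ∉ A := fun h => absurd (hmin x1 h) (not_le.2 hx1.2)
  rw [hA, mem_filter] at hx1A
  push Not at hx1A
  have h1 := hx1A (mem_univ _)
  have hd : Disjoint (univ.filter fun y => f x1 < f y) (univ.filter fun x => f x < f x0) := by
    rw [Finset.disjoint_left]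
    intro y hy hy'
    have := hmax y hy'
    rw [mem_filter] at hy
    linarith [hy.2]
  have h2 := card_le_univ ((univ.filter fun y => f x1 < f y) ∪ (univ.filter fun x => f x < f x0))
  rw [card_union_of_disjoint hd] at h2
  omega

/-- The upper end of the spectrum. -/
theorem upper_end {t Δ : ℝ} (ht : 0 ≤ t) (hΔ : ∀ x, (G.degree x : ℝ) ≤ Δ)
    (hexp : ∀ X : Finset V, 2 * X.card ≤ Fintype.card V → t * X.card ≤ ar G X Xᶜ)
    {f : V → ℝ} (hf : ∑ x, (G.degree x : ℝ) * f x = 0) :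
    t ^ 2 * ∑ x, (G.degree x : ℝ) * f x ^ 2 ≤
      Δ ^ 2 * ∑ x, ∑ y, ad G x y * (f x - f y) ^ 2 := by
  rcases isEmpty_or_nonempty V with hV | hV
  · simp
  have hΔ0 : 0 ≤ Δ := le_trans (Nat.cast_nonneg _) (hΔ hV.some)
  obtain ⟨μ, h1, h2⟩ := exists_median f
  set p : V → ℝ := fun x => max (f x - μ) 0 with hp
  set q : V → ℝ := fun x => max (μ - f x) 0 with hq
  have hp1 : (univ.filter fun x => p x ≠ 0) = univ.filter fun x => μ < f x := by
    ext x
    simp only [mem_filter, mem_univ, true_and, hp]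
    constructor
    · intro h
      by_contra hcon
      apply h
      exact max_eq_right (by linarith [not_lt.1 hcon])
    · intro h
      have : 0 < max (f x - μ) 0 := lt_max_of_lt_left (by linarith)
      exact this.ne'
  have hq1 : (univ.filter fun x => q x ≠ 0) = univ.filter fun x => f x < μ := by
    ext x
    simp only [mem_filter, mem_univ, true_and, hq]
    constructor
    · intro h
      by_contra hcon
      apply h
      exact max_eq_right (by linarith [not_lt.1 hcon])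
    · intro h
      have : 0 < max (μ - f x) 0 := lt_max_of_lt_left (by linarith)
      exact this.ne'
  have h3 := one_sided ht hΔ hexp (g := p) (by rw [hp1]; exact h1)
  have h4 := one_sided ht hΔ hexp (g := q) (by rw [hq1]; exact h2)
  have hpq : ∀ x, p x ^ 2 + q x ^ 2 = (f x - μ) ^ 2 ∧ p x - q x = f x - μ ∧ p x * q x = 0 ∧
      0 ≤ p x ∧ 0 ≤ q x := by
    intro x
    simp only [hp, hq]
    rcases le_total (f x) μ with h | h
    · rw [max_eq_right (by linarith : f x - μ ≤ 0), max_eq_left (by linarith : 0 ≤ μ - f x)]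
      refine ⟨by ring, by ring, by ring, le_rfl, by linarith⟩
    · rw [max_eq_left (by linarith : 0 ≤ f x - μ), max_eq_right (by linarith : μ - f x ≤ 0)]
      refine ⟨by ring, by ring, by ring, by linarith, le_rfl⟩
  have h5 : ∑ x, ∑ y, ad G x y * (p x - p y) ^ 2 + ∑ x, ∑ y, ad G x y * (q x - q y) ^ 2 ≤
      ∑ x, ∑ y, ad G x y * (f x - f y) ^ 2 := by
    rw [← sum_add_distrib]
    refine sum_le_sum fun x _ => ?_
    rw [← sum_add_distrib]
    refine sum_le_sum fun y _ => ?_
    rw [← mul_add]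
    apply mul_le_mul_of_nonneg_left _ (ad_nonneg G x y)
    obtain ⟨-, a1, a2, a3, a4⟩ := hpq x
    obtain ⟨-, b1, b2, b3, b4⟩ := hpq y
    have e1 : f x - f y = (p x - p y) - (q x - q y) := by linarith
    rw [e1]
    have e2 : 0 ≤ p x * q y := mul_nonneg a3 b4
    have e3 : 0 ≤ p y * q x := mul_nonneg b3 a4
    nlinarith
  have h6 : ∑ x, (f x - μ) ^ 2 = ∑ x, p x ^ 2 + ∑ x, q x ^ 2 := by
    rw [← sum_add_distrib]
    exact sum_congr rfl fun x _ => (hpq x).1.symm
  have h7 : t ^ 2 * ∑ x, (f x - μ) ^ 2 ≤ Δ * ∑ x, ∑ y, ad G x y * (f x - f y) ^ 2 := by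
    rw [h6, mul_add]
    refine (add_le_add h3 h4).trans ?_
    rw [← mul_add]
    exact mul_le_mul_of_nonneg_left h5 hΔ0
  have h8 : ∑ x, (G.degree x : ℝ) * f x ^ 2 ≤ ∑ x, (G.degree x : ℝ) * (f x - μ) ^ 2 := by
    have e1 : ∑ x, (G.degree x : ℝ) * (f x - μ) ^ 2 = ∑ x, (G.degree x : ℝ) * f x ^ 2 -
        2 * μ * ∑ x, (G.degree x : ℝ) * f x + μ ^ 2 * ∑ x, (G.degree x : ℝ) := by
      rw [mul_sum, mul_sum, ← sum_sub_distrib, ← sum_add_distrib]
      refine sum_congr rfl fun x _ => ?_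
      ring
    rw [e1, hf]
    have : 0 ≤ ∑ x, (G.degree x : ℝ) := sum_nonneg fun x _ => Nat.cast_nonneg _
    nlinarith [sq_nonneg μ, mul_nonneg (sq_nonneg μ) this]
  have h9 : ∑ x, (G.degree x : ℝ) * (f x - μ) ^ 2 ≤ Δ * ∑ x, (f x - μ) ^ 2 := by
    rw [mul_sum]
    exact sum_le_sum fun x _ => mul_le_mul_of_nonneg_right (hΔ x) (sq_nonneg _)
  calc t ^ 2 * ∑ x, (G.degree x : ℝ) * f x ^ 2 ≤ t ^ 2 * (Δ * ∑ x, (f x - μ) ^ 2) :=
        mul_le_mul_of_nonneg_left (h8.trans h9) (sq_nonneg _)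
    _ = Δ * (t ^ 2 * ∑ x, (f x - μ) ^ 2) := by ring
    _ ≤ Δ * (Δ * ∑ x, ∑ y, ad G x y * (f x - f y) ^ 2) := mul_le_mul_of_nonneg_left h7 hΔ0
    _ = _ := by ring

/-- Both ends of the spectrum of the adjacency form. -/
theorem form_bounds {t Δ : ℝ} (ht : 0 < t) (hΔ : ∀ x, (G.degree x : ℝ) ≤ Δ) (hΔ0 : 0 < Δ)
    (hexp : ∀ X : Finset V, 2 * X.card ≤ Fintype.card V → t * X.card ≤ ar G X Xᶜ)
    (hrob : ∀ L R : Finset V, Disjoint L R →
      t * (L ∪ R).card ≤ ar G L L + ar G R R + ar G (L ∪ R) (L ∪ R)ᶜ) {f : V → ℝ}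
    (hf : ∑ x, (G.degree x : ℝ) * f x = 0) :
    |∑ x, ∑ y, ad G x y * (f x * f y)| ≤
      (1 - t ^ 2 / (2 * Δ ^ 2)) * ∑ x, (G.degree x : ℝ) * f x ^ 2 := by
  have h1 := upper_end ht.le hΔ hexp hf
  have h2 := signed ht.le hΔ hrob f
  have e1 : ∑ x, ∑ y, ad G x y * (f x - f y) ^ 2 = 2 * ∑ x, (G.degree x : ℝ) * f x ^ 2 -
      2 * ∑ x, ∑ y, ad G x y * (f x * f y) := by
    have : ∑ x, ∑ y, ad G x y * (f x - f y) ^ 2 = ∑ x, ∑ y, ad G x y * f x ^ 2 +
        ∑ x, ∑ y, ad G x y * f y ^ 2 - 2 * ∑ x, ∑ y, ad G x y * (f x * f y) := by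
      simp only [mul_sum, ← sum_add_distrib, ← sum_sub_distrib]
      refine sum_congr rfl fun x _ => sum_congr rfl fun y _ => ?_
      ring
    rw [this, sum_ad_left G (fun x => f x ^ 2), sum_ad_right G (fun x => f x ^ 2)]
    ring
  have e2 : ∑ x, ∑ y, ad G x y * (f x + f y) ^ 2 = 2 * ∑ x, (G.degree x : ℝ) * f x ^ 2 +
      2 * ∑ x, ∑ y, ad G x y * (f x * f y) := by
    have : ∑ x, ∑ y, ad G x y * (f x + f y) ^ 2 = ∑ x, ∑ y, ad G x y * f x ^ 2 +
        ∑ x, ∑ y, ad G x y * f y ^ 2 + 2 * ∑ x, ∑ y, ad G x y * (f x * f y) := by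
      simp only [mul_sum, ← sum_add_distrib]
      refine sum_congr rfl fun x _ => sum_congr rfl fun y _ => ?_
      ring
    rw [this, sum_ad_left G (fun x => f x ^ 2), sum_ad_right G (fun x => f x ^ 2)]
    ring
  rw [e1] at h1
  rw [e2] at h2
  set S := ∑ x, (G.degree x : ℝ) * f x ^ 2 with hS
  set B := ∑ x, ∑ y, ad G x y * (f x * f y) with hB
  have h3 : S ≤ Δ * ∑ x, f x ^ 2 := by
    rw [hS, mul_sum]
    exact sum_le_sum fun x _ => mul_le_mul_of_nonneg_right (hΔ x) (sq_nonneg _)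
  have h4 : t ^ 2 * S ≤ Δ ^ 2 * (2 * S + 2 * B) := by
    calc t ^ 2 * S ≤ t ^ 2 * (Δ * ∑ x, f x ^ 2) := mul_le_mul_of_nonneg_left h3 (sq_nonneg _)
      _ = Δ * (t ^ 2 * ∑ x, f x ^ 2) := by ring
      _ ≤ Δ * (Δ * (2 * S + 2 * B)) := mul_le_mul_of_nonneg_left h2 hΔ0.le
      _ = _ := by ring
  have hd : 0 < 2 * Δ ^ 2 := by positivity
  have h5 : t ^ 2 / (2 * Δ ^ 2) * S ≤ S - B := by
    rw [div_mul_eq_mul_div, div_le_iff₀ hd]
    linarith
  have h6 : t ^ 2 / (2 * Δ ^ 2) * S ≤ S + B := by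
    rw [div_mul_eq_mul_div, div_le_iff₀ hd]
    linarith
  rw [abs_le]
  constructor <;> linarith

end Pool.Agent.J4.H75.GF
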