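import Pool.Agent.J4.H75.GF.Piece

/-!
# Cycles, and the distance from bipartite graphs
-/

set_option autoImplicit false
set_option linter.unusedSectionVars false

open Finset

namespace Pool.Agent.J4.H75.GF

open Pool.Agent.J4.H75.GE Pool.TH815.GR

/-- The edge between the ends of a path of length at least two is not an edge of the path. -/
theorem end_edge {V : Type} {G : SimpleGraph V} {x y : V} (p : G.Walk x y) (hp : p.IsPath)
    (hl : 2 ≤ p.length) : s(y, x) ∉ p.edges := by
  intro hmem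
  cases p with
  | nil => simp at hl
  | @cons _ v _ h q =>
    rw [SimpleGraph.Walk.cons_isPath_iff] at hp
    obtain ⟨hq, hx⟩ := hp
    rw [SimpleGraph.Walk.edges_cons, List.mem_cons] at hmem
    rcases hmem with hmem | hmem
    · have hyx : y ≠ x := fun e => hx (e ▸ q.end_mem_support)
      rw [Sym2.eq_iff] at hmem
      rcases hmem with ⟨e, _⟩ | ⟨e, _⟩
      · exact hyx e
      · subst e
        have := SimpleGraph.Walk.isPath_iff_nil.1 hq
        rw [SimpleGraph.Walk.length_cons, SimpleGraph.Walk.nil_iff_length_eq.1 this] at hl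
        omega
    · exact hx (SimpleGraph.Walk.snd_mem_support_of_mem_edges q hmem)

theorem cycles_finite {V : Type} [Fintype V] (G : SimpleGraph V) (l : ℕ) :
    ({c : Σ x, G.Walk x x | c.2.IsCycle ∧ c.2.length = l} : Set _).Finite := by
  classical
  apply Set.Finite.subset
    (((univ : Finset V).sigma fun x => G.finsetWalkLength l x x : Finset (Σ x, G.Walk x x)).finite_toSet)
  rintro ⟨x, p⟩ ⟨_, hp⟩
  rw [mem_coe, mem_sigma]
  exact ⟨mem_univ _, SimpleGraph.mem_finsetWalkLength_iff.2 hp⟩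

open Classical in
/-- Cycles from paths. -/
theorem cycles_ge {V : Type} [Fintype V] {G : SimpleGraph V} {m : ℕ} (H : SimpleGraph (Fin m))
    [DecidableRel H.Adj] (f : H ↪g G) {l : ℕ} (hl : 2 ≤ l) {P : ℝ}
    (hP : ∀ x y, H.Adj x y →
      P ≤ (((H.finsetWalkLength l x y).filter fun p => p.IsPath).card : ℝ)) :
    (∑ x, (H.degree x : ℝ)) * P ≤
      (({c : Σ x, G.Walk x x | c.2.IsCycle ∧ c.2.length = l + 1} : Set _).ncard : ℝ) := by
  set A : Finset (Σ x, Σ y, H.Walk x y) := univ.sigma fun x =>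
    (univ.filter fun y => H.Adj x y).sigma fun y =>
      (H.finsetWalkLength l x y).filter fun p => p.IsPath with hA
  have hcard : (∑ x, (H.degree x : ℝ)) * P ≤ (A.card : ℝ) := by
    rw [hA, card_sigma, Nat.cast_sum, sum_mul]
    refine sum_le_sum fun x _ => ?_
    rw [card_sigma, Nat.cast_sum, ← deg_eq]
    calc ((univ.filter fun y => H.Adj x y).card : ℝ) * P = ∑ y ∈ univ.filter (fun y => H.Adj x y), P := by
          rw [sum_const, nsmul_eq_mul]
      _ ≤ _ := by
          refine sum_le_sum fun y hy => hP x y ?_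
          rw [mem_filter] at hy
          exact hy.2
  refine hcard.trans ?_
  let g : (Σ x, Σ y, H.Walk x y) → Σ x, G.Walk x x := fun t =>
    if h : H.Adj t.2.1 t.1 then ⟨f t.2.1, (SimpleGraph.Walk.cons h t.2.2).map f.toHom⟩
    else ⟨f t.1, SimpleGraph.Walk.nil⟩
  have hAm : ∀ x y (p : H.Walk x y), (⟨x, ⟨y, p⟩⟩ : Σ x, Σ y, H.Walk x y) ∈ A →
      H.Adj x y ∧ p.length = l ∧ p.IsPath := by
    intro x y p h
    rw [hA, mem_sigma, mem_sigma, mem_filter, mem_filter] at h
    exact ⟨h.2.1.2, SimpleGraph.mem_finsetWalkLength_iff.1 h.2.2.1, h.2.2.2⟩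
  have hmaps : ∀ t ∈ (A : Set _), g t ∈
      ({c : Σ x, G.Walk x x | c.2.IsCycle ∧ c.2.length = l + 1} : Set _) := by
    rintro ⟨x, y, p⟩ ht
    obtain ⟨h1, h2, h3⟩ := hAm x y p ht
    have h4 : H.Adj y x := h1.symm
    have hg : g ⟨x, y, p⟩ = ⟨f y, (SimpleGraph.Walk.cons h4 p).map f.toHom⟩ := dif_pos h4
    rw [hg]
    refine ⟨?_, ?_⟩
    · apply SimpleGraph.Walk.IsCycle.map f.injective
      rw [SimpleGraph.Walk.cons_isCycle_iff]
      exact ⟨h3, end_edge p h3 (by omega)⟩
    · show ((SimpleGraph.Walk.cons h4 p).map f.toHom).length = l + 1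
      rw [SimpleGraph.Walk.length_map, SimpleGraph.Walk.length_cons, h2]
  have hinj : Set.InjOn g (A : Set _) := by
    rintro ⟨x, y, p⟩ ht ⟨x', y', p'⟩ ht' heq
    obtain ⟨h1, -, -⟩ := hAm x y p ht
    obtain ⟨h1', -, -⟩ := hAm x' y' p' ht'
    have h4 : H.Adj y x := h1.symm
    have h4' : H.Adj y' x' := h1'.symm
    have hg : g ⟨x, y, p⟩ = ⟨f y, (SimpleGraph.Walk.cons h4 p).map f.toHom⟩ := dif_pos h4
    have hg' : g ⟨x', y', p'⟩ = ⟨f y', (SimpleGraph.Walk.cons h4' p').map f.toHom⟩ := dif_pos h4'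
    rw [hg, hg'] at heq
    have hy : y = y' := f.injective (congrArg Sigma.fst heq)
    subst hy
    have h5 : (SimpleGraph.Walk.cons h4 p).map f.toHom =
        (SimpleGraph.Walk.cons h4' p').map f.toHom := eq_of_heq (Sigma.mk.inj heq).2
    have h6 := SimpleGraph.Walk.map_injective_of_injective (f := f.toHom) f.injective _ _ h5
    have h7 := SimpleGraph.Walk.cons.inj h6
    obtain ⟨hx, hpp⟩ := h7
    subst hx
    rw [eq_of_heq hpp]
  have h8 := Set.ncard_le_ncard_of_injOn g hmaps hinj (cycles_finite G (l + 1))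
  rw [Set.ncard_coe_finset] at h8
  exact_mod_cast h8

/-- `G` can be made bipartite by deleting at most `t` edges. -/
def NearBip {V : Type} (G : SimpleGraph V) (t : ℝ) : Prop :=
  ∃ B : SimpleGraph V, B ≤ G ∧ B.Colorable 2 ∧ (G.edgeSet.ncard : ℝ) ≤ B.edgeSet.ncard + t

theorem exists_bip_fr {V : Type} [Fintype V] [DecidableEq V] (G : SimpleGraph V)
    [DecidableRel G.Adj] : ∃ B : SimpleGraph V, B ≤ G ∧ B.Colorable 2 ∧
      2 * (G.edgeSet.ncard : ℝ) = 2 * B.edgeSet.ncard + fr G univ := by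
  classical
  obtain ⟨X, -, hX⟩ := exists_fr G univ
  let B : SimpleGraph V :=
    { Adj := fun a b => G.Adj a b ∧ ¬ (a ∈ X ↔ b ∈ X)
      symm := ⟨fun a b hab => ⟨hab.1.symm, fun h => hab.2 h.symm⟩⟩
      loopless := ⟨fun a ha => ha.2 Iff.rfl⟩ }
  have hBa : ∀ a b, B.Adj a b ↔ G.Adj a b ∧ ¬ (a ∈ X ↔ b ∈ X) := fun a b => Iff.rfl
  refine ⟨B, fun a b hab => hab.1, ?_, ?_⟩
  · let col : B.Coloring Bool := SimpleGraph.Coloring.mk (fun a => decide (a ∈ X)) (by
      intro a b hab heq
      exact hab.2 (by simpa using heq))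
    have := col.colorable
    rwa [Fintype.card_bool] at this
  · have h1 := ar_split G (subset_univ X)
    have h2 := ar_split B (subset_univ X)
    have h3 : ar B X X = 0 := by
      unfold ar
      refine sum_eq_zero fun x hx => sum_eq_zero fun y hy => ?_
      rw [if_neg]
      rw [hBa]
      exact fun h => h.2 ⟨fun _ => hy, fun _ => hx⟩
    have h4 : ar B (univ \ X) (univ \ X) = 0 := by
      unfold ar
      refine sum_eq_zero fun x hx => sum_eq_zero fun y hy => ?_
      rw [if_neg]
      rw [hBa]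
      rw [mem_sdiff] at hx hy
      exact fun h => h.2 ⟨fun e => absurd e hx.2, fun e => absurd e hy.2⟩
    have h5 : ar B X (univ \ X) = ar G X (univ \ X) := by
      unfold ar
      refine sum_congr rfl fun x hx => sum_congr rfl fun y hy => ?_
      rw [mem_sdiff] at hy
      by_cases hxy : G.Adj x y
      · rw [if_pos hxy, if_pos]
        rw [hBa]
        exact ⟨hxy, fun h => hy.2 (h.1 hx)⟩
      · rw [if_neg hxy, if_neg]
        rw [hBa]
        exact fun h => hxy h.1
    rw [ar_univ] at h1 h2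
    have e1 : (G.edgeFinset.card : ℝ) = (G.edgeSet.ncard : ℝ) := by
      rw [← SimpleGraph.coe_edgeFinset, Set.ncard_coe_finset]
    have e2 : (B.edgeFinset.card : ℝ) = (B.edgeSet.ncard : ℝ) := by
      rw [← SimpleGraph.coe_edgeFinset, Set.ncard_coe_finset]
    rw [e1] at h1
    rw [e2] at h2
    rw [hX]
    linarith

theorem fr_of_not_near {V : Type} [Fintype V] [DecidableEq V] (G : SimpleGraph V)
    [DecidableRel G.Adj] {t : ℝ} (h : ¬ NearBip G t) : 2 * t ≤ fr G univ := by
  by_contra hcon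
  push Not at hcon
  apply h
  obtain ⟨B, h1, h2, h3⟩ := exists_bip_fr G
  exact ⟨B, h1, h2, by linarith⟩

/-- A vertex of a part of an optimal partition. -/
theorem opt_vertex {V : Type} [Fintype V] [DecidableEq V] (G : SimpleGraph V)
    [DecidableRel G.Adj] {X : Finset V} (hX : fr G univ = ar G X X + ar G (univ \ X) (univ \ X))
    {v : V} (hv : v ∈ X) : ar G {v} X ≤ ar G {v} (univ \ X) := by
  set X2 := X \ {v} with hX2
  have hs : ({v} : Finset V) ⊆ X := by simpa using hv
  have h1 := ar_split G hs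
  rw [← hX2] at h1
  have h2 : ar G {v} {v} = 0 := by simp [ar]
  have h3 := fr_le G (subset_univ X2)
  have h4 : univ \ X2 = {v} ∪ (univ \ X) := by
    ext z
    simp only [hX2, mem_sdiff, mem_univ, true_and, mem_singleton, mem_union]
    tauto
  have hd : Disjoint ({v} : Finset V) (univ \ X) := by
    rw [Finset.disjoint_singleton_left, mem_sdiff]
    exact fun h => h.2 hv
  have h5 : ar G (univ \ X2) (univ \ X2) =
      ar G (univ \ X) (univ \ X) + 2 * ar G {v} (univ \ X) := by
    rw [h4, ar_union_left G hd, ar_union_right G hd, ar_union_right G hd, h2,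
      ar_comm G (univ \ X) {v}]
    ring
  have h6 : ar G {v} X = ar G {v} X2 := by
    have e1 : {v} ∪ X2 = X := union_sdiff_of_subset hs
    have e2 : Disjoint ({v} : Finset V) X2 := disjoint_sdiff
    calc ar G {v} X = ar G {v} ({v} ∪ X2) := by rw [e1]
      _ = ar G {v} X2 := by rw [ar_union_right G e2, h2, zero_add]
  rw [h2] at h1
  rw [h5] at h3
  rw [h6]
  linarith

theorem opt_part {V : Type} [Fintype V] [DecidableEq V] (G : SimpleGraph V)
    [DecidableRel G.Adj] {X : Finset V}
    (hX : fr G univ = ar G X X + ar G (univ \ X) (univ \ X)) :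
    ar G X X ≤ ar G X (univ \ X) := by
  have e : ∀ Y : Finset V, ar G X Y = ∑ v ∈ X, ar G {v} Y := by
    intro Y
    unfold ar
    refine sum_congr rfl fun v _ => ?_
    rw [sum_singleton]
  rw [e, e]
  exact sum_le_sum fun v hv => opt_vertex G hX hv

theorem fr_half {V : Type} [Fintype V] [DecidableEq V] (G : SimpleGraph V)
    [DecidableRel G.Adj] : 2 * fr G univ ≤ ar G univ univ := by
  obtain ⟨X, -, hX⟩ := exists_fr G univ
  have h1 := opt_part G hX
  have hc : univ \ (univ \ X) = X := by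
    ext z
    simp
  have h2 := opt_part G (X := univ \ X) (by rw [hc, hX, add_comm])
  rw [hc, ar_comm G (univ \ X) X] at h2
  have h3 := ar_split G (subset_univ X)
  rw [h3]
  rw [hX]
  linarith

/-- Half of the edges. -/
theorem half_bip {V : Type} [Fintype V] (G : SimpleGraph V) : ∃ B : SimpleGraph V, B ≤ G ∧
    B.Colorable 2 ∧ (G.edgeSet.ncard : ℝ) ≤ 2 * B.edgeSet.ncard := by
  classical
  obtain ⟨B, h1, h2, h3⟩ := exists_bip_fr G
  refine ⟨B, h1, h2, ?_⟩
  have h4 := fr_half G
  rw [ar_univ] at h4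
  have e1 : (G.edgeFinset.card : ℝ) = (G.edgeSet.ncard : ℝ) := by
    rw [← SimpleGraph.coe_edgeFinset, Set.ncard_coe_finset]
  rw [e1] at h4
  linarith

end Pool.Agent.J4.H75.GF
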