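import Pool.Agent.J4.H75.GE.Expand

/-!
# Sets of vertices maximising the distance from bipartite graphs
-/

set_option autoImplicit false
set_option linter.unusedSectionVars false

open Finset

namespace Pool.Agent.J4.H75.GF

open Pool.Agent.J4.H75.GE Pool.TH815.GR

section Basic

variable {V : Type*} [DecidableEq V] (G : SimpleGraph V) [DecidableRel G.Adj]

/-- Twice the least number of edges inside the two parts of a partition of `U`. -/
noncomputable def fr (U : Finset V) : ℝ :=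
  (U.powerset).inf' ⟨∅, by simp⟩ (fun X => ar G X X + ar G (U \ X) (U \ X))

theorem fr_le {U X : Finset V} (h : X ⊆ U) : fr G U ≤ ar G X X + ar G (U \ X) (U \ X) :=
  inf'_le _ (mem_powerset.2 h)

theorem exists_fr (U : Finset V) : ∃ X ⊆ U, fr G U = ar G X X + ar G (U \ X) (U \ X) := by
  obtain ⟨X, hX, h⟩ := exists_mem_eq_inf' (s := U.powerset) ⟨∅, by simp⟩
    (fun X => ar G X X + ar G (U \ X) (U \ X))
  exact ⟨X, mem_powerset.1 hX, h⟩

theorem fr_nonneg (U : Finset V) : 0 ≤ fr G U := by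
  obtain ⟨X, -, h⟩ := exists_fr G U
  rw [h]
  exact add_nonneg (ar_nonneg _ _ _) (ar_nonneg _ _ _)

theorem fr_le_ar (U : Finset V) : fr G U ≤ ar G U U := by
  have h := fr_le G (empty_subset U)
  rwa [ar_empty, zero_add, sdiff_empty] at h

theorem fr_empty : fr G ∅ = 0 :=
  le_antisymm ((fr_le_ar G ∅).trans_eq (ar_empty G ∅)) (fr_nonneg G ∅)

/-- Combining two partitions. -/
theorem fr_combine {U X1 Y1 X2 Y2 : Finset V} (hU : U = (X1 ∪ Y1) ∪ (X2 ∪ Y2))
    (h12 : Disjoint (X1 ∪ Y1) (X2 ∪ Y2)) (h1 : Disjoint X1 Y1) (h2 : Disjoint X2 Y2) :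
    fr G U ≤ ar G X1 X1 + ar G Y1 Y1 + 2 * ar G X1 Y1 +
      (ar G X2 X2 + ar G Y2 Y2 + 2 * ar G X2 Y2) := by
  have h := fr_le G (U := U) (X := X1 ∪ Y1) (by rw [hU]; exact subset_union_left)
  have hs : U \ (X1 ∪ Y1) = X2 ∪ Y2 := by
    rw [hU, union_sdiff_left, sdiff_eq_self_of_disjoint h12.symm]
  rw [hs] at h
  have e1 : ar G (X1 ∪ Y1) (X1 ∪ Y1) = ar G X1 X1 + ar G Y1 Y1 + 2 * ar G X1 Y1 := by
    rw [ar_union_left G h1, ar_union_right G h1, ar_union_right G h1, ar_comm G Y1 X1]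
    ring
  have e2 : ar G (X2 ∪ Y2) (X2 ∪ Y2) = ar G X2 X2 + ar G Y2 Y2 + 2 * ar G X2 Y2 := by
    rw [ar_union_left G h2, ar_union_right G h2, ar_union_right G h2, ar_comm G Y2 X2]
    ring
  rw [e1, e2] at h
  exact h

theorem fr_split {U X : Finset V} (h : X ⊆ U) :
    fr G U ≤ fr G X + fr G (U \ X) + 2 * ar G X (U \ X) := by
  obtain ⟨X1, hX1, hx⟩ := exists_fr G X
  obtain ⟨Y1, hY1, hy⟩ := exists_fr G (U \ X)
  set X2 := X \ X1 with hX2
  set Y2 := (U \ X) \ Y1 with hY2
  have d : Disjoint X (U \ X) := disjoint_sdiff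
  have hX2' : X2 ⊆ X := sdiff_subset
  have hY2' : Y2 ⊆ U \ X := sdiff_subset
  have hXX : X1 ∪ X2 = X := union_sdiff_of_subset hX1
  have hYY : Y1 ∪ Y2 = U \ X := union_sdiff_of_subset hY1
  have dX : Disjoint X1 X2 := disjoint_sdiff
  have dY : Disjoint Y1 Y2 := disjoint_sdiff
  have h1 := fr_combine G (U := U) (X1 := X1) (Y1 := Y1) (X2 := X2) (Y2 := Y2)
    (by
      rw [union_union_union_comm, hXX, hYY, union_sdiff_of_subset h])
    (by
      rw [disjoint_union_left, disjoint_union_right, disjoint_union_right]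
      exact ⟨⟨dX, disjoint_of_subset_left hX1 (disjoint_of_subset_right hY2' d)⟩,
        ⟨(disjoint_of_subset_left hX2' (disjoint_of_subset_right hY1 d)).symm, dY⟩⟩)
    (disjoint_of_subset_left hX1 (disjoint_of_subset_right hY1 d))
    (disjoint_of_subset_left hX2' (disjoint_of_subset_right hY2' d))
  have h2 : ar G X (U \ X) = ar G X1 Y1 + ar G X1 Y2 + (ar G X2 Y1 + ar G X2 Y2) := by
    calc ar G X (U \ X) = ar G (X1 ∪ X2) (Y1 ∪ Y2) := by rw [hXX, hYY]
      _ = _ := by rw [ar_union_left G dX, ar_union_right G dY, ar_union_right G dY]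
  have h3 := ar_nonneg G X1 Y2
  have h4 := ar_nonneg G X2 Y1
  rw [hx, hy, h2]
  linarith

/-- The density condition for the distance from bipartite graphs. -/
def FOpt (a : ℝ) (U : Finset V) : Prop :=
  ∀ X ⊆ U, fr G X ≤ ((X.card : ℝ) / U.card) ^ a * fr G U

theorem exists_fopt (L : Finset V) (hL : L.Nonempty) (a : ℝ) :
    ∃ U ⊆ L, U.Nonempty ∧ FOpt G a U ∧ fr G L / (L.card : ℝ) ^ a ≤ fr G U / (U.card : ℝ) ^ a := by
  obtain ⟨U, hU, hmax⟩ := Finset.exists_max_image (L.powerset.filter fun X => X.Nonempty)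
    (fun X => fr G X / (X.card : ℝ) ^ a) ⟨L, by simp [hL]⟩
  rw [mem_filter, mem_powerset] at hU
  refine ⟨U, hU.1, hU.2, ?_, hmax L (by simp [hL])⟩
  intro X hX
  rcases X.eq_empty_or_nonempty with h | h
  · rw [h, fr_empty]
    exact mul_nonneg (Real.rpow_nonneg (by positivity) _) (fr_nonneg _ _)
  · have h1 := hmax X (by
      rw [mem_filter, mem_powerset]
      exact ⟨hX.trans hU.1, h⟩)
    have hXc : (0 : ℝ) < X.card := by exact_mod_cast card_pos.2 h
    have hUc : (0 : ℝ) < U.card := by exact_mod_cast card_pos.2 hU.2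
    have hXa : (0 : ℝ) < (X.card : ℝ) ^ a := Real.rpow_pos_of_pos hXc _
    have hUa : (0 : ℝ) < (U.card : ℝ) ^ a := Real.rpow_pos_of_pos hUc _
    rw [Real.div_rpow hXc.le hUc.le]
    rw [div_le_div_iff₀ hXa hUa] at h1
    rw [div_mul_eq_mul_div, le_div_iff₀ hUa]
    linarith

variable {G}

theorem expansion_f {a : ℝ} (ha : 1 < a) {U : Finset V} (hU : FOpt G a U)
    {X : Finset V} (hX : X ⊆ U) (h2 : 2 * X.card ≤ U.card) :
    (1 - 2 ^ (1 - a)) / 2 * ((X.card : ℝ) / U.card) * fr G U ≤ ar G X (U \ X) := by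
  rcases U.eq_empty_or_nonempty with h | h
  · subst h
    rw [fr_empty, mul_zero]
    exact ar_nonneg _ _ _
  have hUc : (0 : ℝ) < U.card := by exact_mod_cast card_pos.2 h
  set p : ℝ := (X.card : ℝ) / U.card with hp
  have hp0 : 0 ≤ p := by positivity
  have hp2 : p ≤ 1 / 2 := by
    rw [hp, div_le_div_iff₀ hUc (by norm_num)]
    have : (2 : ℝ) * X.card ≤ U.card := by exact_mod_cast h2
    linarith
  have h1 := hU X hX
  have h3 := hU (U \ X) sdiff_subset
  have hq : ((U \ X).card : ℝ) / U.card = 1 - p := by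
    rw [card_sdiff_of_subset hX, Nat.cast_sub (card_le_card hX), hp]
    field_simp
  rw [hq] at h3
  rw [← hp] at h1
  have hs := fr_split G hX
  have hA := fr_nonneg G U
  have hpa : p ^ a ≤ p * 2 ^ (1 - a) := by
    rcases hp0.eq_or_lt with h0 | h0
    · rw [← h0, Real.zero_rpow (by linarith), zero_mul]
    · calc p ^ a = p ^ (1 + (a - 1)) := by ring_nf
        _ = p * p ^ (a - 1) := by rw [Real.rpow_add h0, Real.rpow_one]
        _ ≤ p * (1 / 2) ^ (a - 1) :=
            mul_le_mul_of_nonneg_left (Real.rpow_le_rpow h0.le hp2 (by linarith)) h0.le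
        _ = p * 2 ^ (1 - a) := by
            rw [one_div, Real.inv_rpow (by norm_num), ← Real.rpow_neg (by norm_num)]
            ring_nf
  have hqa : (1 - p) ^ a ≤ 1 - p := by
    calc (1 - p) ^ a ≤ (1 - p) ^ (1 : ℝ) :=
          Real.rpow_le_rpow_of_exponent_ge (by linarith) (by linarith) ha.le
      _ = 1 - p := Real.rpow_one _
  have h5 : p ^ a * fr G U ≤ p * 2 ^ (1 - a) * fr G U := mul_le_mul_of_nonneg_right hpa hA
  have h6 : (1 - p) ^ a * fr G U ≤ (1 - p) * fr G U := mul_le_mul_of_nonneg_right hqa hA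
  nlinarith

/-- Expansion and robust non-bipartiteness in one statement. -/
theorem robust_f {a : ℝ} (ha : 1 < a) {U : Finset V} (hU : FOpt G a U)
    {L R : Finset V} (hL : L ⊆ U) (hR : R ⊆ U) (hd : Disjoint L R) :
    (1 - 2 ^ (1 - a)) / 4 * (((L ∪ R).card : ℝ) / U.card) * fr G U ≤
      ar G L L + ar G R R + ar G (L ∪ R) (U \ (L ∪ R)) := by
  rcases U.eq_empty_or_nonempty with h | h
  · subst h
    rw [fr_empty, mul_zero]
    exact add_nonneg (add_nonneg (ar_nonneg _ _ _) (ar_nonneg _ _ _)) (ar_nonneg _ _ _)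
  have hUc : (0 : ℝ) < U.card := by exact_mod_cast card_pos.2 h
  have hA := fr_nonneg G U
  have hκ : (0 : ℝ) < 2 ^ (1 - a) := by positivity
  have hκ1 : (2 : ℝ) ^ (1 - a) < 1 := Real.rpow_lt_one_of_one_lt_of_neg (by norm_num) (by linarith)
  have hW : L ∪ R ⊆ U := union_subset hL hR
  have n1 := ar_nonneg G L L
  have n2 := ar_nonneg G R R
  have n3 := ar_nonneg G (L ∪ R) (U \ (L ∪ R))
  set W := L ∪ R with hWd
  have hp0 : 0 ≤ (W.card : ℝ) / U.card := by positivity
  by_cases h2 : 2 * W.card ≤ U.card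
  · have h3 := expansion_f ha hU hW h2
    have h4 : 0 ≤ (1 - 2 ^ (1 - a)) / 4 * ((W.card : ℝ) / U.card) * fr G U := by
      have : (0 : ℝ) ≤ (1 - 2 ^ (1 - a)) / 4 := by linarith
      positivity
    have h5 : (1 - 2 ^ (1 - a)) / 2 * ((W.card : ℝ) / U.card) * fr G U =
        2 * ((1 - 2 ^ (1 - a)) / 4 * ((W.card : ℝ) / U.card) * fr G U) := by ring
    rw [h5] at h3
    linarith
  · set Z := U \ W with hZ
    obtain ⟨Z1, hZ1, hz⟩ := exists_fr G Z
    set Z2 := Z \ Z1 with hZ2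
    have hZ2' : Z2 ⊆ Z := sdiff_subset
    have hZZ : Z1 ∪ Z2 = Z := union_sdiff_of_subset hZ1
    have dZ : Disjoint Z1 Z2 := disjoint_sdiff
    have dWZ : Disjoint W Z := disjoint_sdiff
    have hLW : L ⊆ W := subset_union_left
    have hRW : R ⊆ W := subset_union_right
    have h1 := fr_combine G (U := U) (X1 := L) (Y1 := Z1) (X2 := R) (Y2 := Z2)
      (by rw [union_union_union_comm, hZZ, ← hWd, union_sdiff_of_subset hW])
      (by
        rw [disjoint_union_left, disjoint_union_right, disjoint_union_right]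
        exact ⟨⟨hd, disjoint_of_subset_left hLW (disjoint_of_subset_right hZ2' dWZ)⟩,
          ⟨(disjoint_of_subset_left hRW (disjoint_of_subset_right hZ1 dWZ)).symm, dZ⟩⟩)
      (disjoint_of_subset_left hLW (disjoint_of_subset_right hZ1 dWZ))
      (disjoint_of_subset_left hRW (disjoint_of_subset_right hZ2' dWZ))
    have h3 : ar G L Z1 + ar G R Z2 ≤ ar G W Z := by
      rw [hWd, ar_union_left G hd]
      exact add_le_add (ar_mono G (le_refl _) hZ1) (ar_mono G (le_refl _) hZ2')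
    have h4 := hU Z sdiff_subset
    have hq : (Z.card : ℝ) / U.card ≤ 1 / 2 := by
      rw [div_le_div_iff₀ hUc (by norm_num), hZ, card_sdiff_of_subset hW,
        Nat.cast_sub (card_le_card hW)]
      have : (U.card : ℝ) < 2 * W.card := by
        push Not at h2
        exact_mod_cast h2
      linarith
    have hq0 : 0 ≤ (Z.card : ℝ) / U.card := by positivity
    have h5 : ((Z.card : ℝ) / U.card) ^ a ≤ 1 / 2 := by
      calc ((Z.card : ℝ) / U.card) ^ a ≤ (1 / 2) ^ a :=
            Real.rpow_le_rpow hq0 hq (by linarith)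
        _ ≤ (1 / 2) ^ (1 : ℝ) :=
            Real.rpow_le_rpow_of_exponent_ge (by norm_num) (by norm_num) ha.le
        _ = 1 / 2 := Real.rpow_one _
    have h6 : fr G Z ≤ 1 / 2 * fr G U := h4.trans (mul_le_mul_of_nonneg_right h5 hA)
    have h7 : (W.card : ℝ) / U.card ≤ 1 := by
      rw [div_le_one hUc]
      exact_mod_cast card_le_card hW
    have h8 : (1 - 2 ^ (1 - a)) / 4 * ((W.card : ℝ) / U.card) * fr G U ≤ 1 / 4 * fr G U := by
      apply mul_le_mul_of_nonneg_right _ hA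
      nlinarith
    rw [hz] at h6
    linarith

end Basic

/-- The set of vertices of small degree is far from bipartite, too. -/
theorem low_degree_f {V : Type} [Fintype V] [DecidableEq V] (G : SimpleGraph V)
    [DecidableRel G.Adj] {k : ℕ} (hk : 1 ≤ k)
    (hg : ∀ (v : V) (p : G.Walk v v), p.IsCycle → 2 * k < p.length)
    {c : ℝ} (hc : 0 < c) (hn1 : 1 ≤ Fintype.card V)
    (he : c * (Fintype.card V : ℝ) ^ (1 + 1 / (k : ℝ)) ≤ fr G univ) :
    ∃ L : Finset V, L.Nonempty ∧ c / 2 * (Fintype.card V : ℝ) ^ (1 + 1 / (k : ℝ)) ≤ fr G L ∧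
      ∀ x ∈ L, (G.degree x : ℝ) ≤
        max (512 / c) ((64 / c) ^ k) * (Fintype.card V : ℝ) ^ (1 / (k : ℝ)) := by
  set n : ℝ := (Fintype.card V : ℝ) with hn
  set K : ℝ := max (512 / c) ((64 / c) ^ k) with hK
  have hn1' : (1 : ℝ) ≤ n := by rw [hn]; exact_mod_cast hn1
  have hn0 : 0 < n := by linarith
  have hkpos : (0 : ℝ) < k := by exact_mod_cast hk
  have hN1 : 1 ≤ n ^ (1 / (k : ℝ)) := Real.one_le_rpow hn1' (by positivity)
  have hK0 : 0 < K := lt_of_lt_of_le (by positivity) (le_max_left _ _)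
  have hrp : n ^ (1 + 1 / (k : ℝ)) = n * n ^ (1 / (k : ℝ)) := by
    rw [Real.rpow_add hn0, Real.rpow_one]
  have hpos : 0 < c / 2 * n ^ (1 + 1 / (k : ℝ)) := by positivity
  have hne : ∀ L : Finset V, c / 2 * n ^ (1 + 1 / (k : ℝ)) ≤ fr G L → L.Nonempty := by
    intro L hL
    rw [nonempty_iff_ne_empty]
    intro h
    rw [h, fr_empty] at hL
    linarith
  by_cases hsm : n ^ (1 / (k : ℝ)) < 64 / c
  · have hL : c / 2 * n ^ (1 + 1 / (k : ℝ)) ≤ fr G univ := by linarith
    refine ⟨univ, hne _ hL, hL, fun x _ => ?_⟩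
    have h1 : (G.degree x : ℝ) ≤ n := by
      rw [hn]
      exact_mod_cast (G.degree_lt_card_verts x).le
    have h2 : n ≤ (64 / c) ^ k := by
      have : n = (n ^ (1 / (k : ℝ))) ^ k := by
        rw [← Real.rpow_natCast, ← Real.rpow_mul hn0.le]
        have : (1 / (k : ℝ)) * (k : ℝ) = 1 := by field_simp
        rw [this, Real.rpow_one]
      rw [this]
      exact pow_le_pow_left₀ (by positivity) hsm.le _
    calc (G.degree x : ℝ) ≤ (64 / c) ^ k := h1.trans h2
      _ ≤ K := le_max_right _ _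
      _ ≤ K * n ^ (1 / (k : ℝ)) := by nlinarith
  · push Not at hsm
    set L : Finset V := univ.filter (fun x => ¬ K * n ^ (1 / (k : ℝ)) < (G.degree x : ℝ)) with hLd
    have htail := tail G hk hg K hK0
    rw [← hn] at htail
    have hLc : (univ \ L : Finset V) =
        univ.filter (fun x => K * n ^ (1 / (k : ℝ)) < (G.degree x : ℝ)) := by
      ext x
      simp [hLd]
    have hsp := fr_split G (subset_univ (univ \ L))
    have hUL : univ \ (univ \ L) = L := by
      ext x
      simp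
    rw [hUL] at hsp
    have hdeg : ∀ X : Finset V, ar G X univ = ∑ x ∈ X, (G.degree x : ℝ) := by
      intro X
      rw [ar_eq_sum_card]
      refine sum_congr rfl fun x _ => ?_
      rw [← G.card_neighborFinset_eq_degree]
      congr 2
      ext y
      simp
    have h1 : ar G (univ \ L) (univ \ L) + ar G (univ \ L) L = ar G (univ \ L) univ := by
      rw [← ar_union_right G (by exact sdiff_disjoint) (univ \ L)]
      congr 1
      exact sdiff_union_of_subset (subset_univ L)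
    have h2 : ar G (univ \ L) univ ≤ 8 * n + 64 / K * n ^ (1 + 1 / (k : ℝ)) := by
      rw [hdeg, hLc]
      exact htail
    have h3 : 64 / K ≤ c / 8 := by
      rw [div_le_iff₀ hK0]
      have : 512 / c ≤ K := le_max_left _ _
      rw [div_le_iff₀ hc] at this
      linarith
    have h4 : 64 / K * n ^ (1 + 1 / (k : ℝ)) ≤ c / 8 * n ^ (1 + 1 / (k : ℝ)) :=
      mul_le_mul_of_nonneg_right h3 (by positivity)
    have h5 : 8 * n ≤ c / 8 * n ^ (1 + 1 / (k : ℝ)) := by
      rw [hrp]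
      rw [div_le_iff₀ hc] at hsm
      nlinarith
    have h6 := fr_le_ar G (univ \ L)
    have h7 := ar_nonneg G (univ \ L) (univ \ L)
    have hL : c / 2 * n ^ (1 + 1 / (k : ℝ)) ≤ fr G L := by linarith
    refine ⟨L, hne _ hL, hL, fun x hx => ?_⟩
    rw [hLd, mem_filter] at hx
    exact not_lt.1 hx.2

/-- **Linear-size optimal sets far from bipartite.** -/
theorem exists_far {k : ℕ} (hk : 1 ≤ k) {c a : ℝ} (hc : 0 < c) (ha1 : 1 < a)
    (ha2 : a < 1 + 1 / (k : ℝ)) :
    ∃ ε : ℝ, 0 < ε ∧ ∃ K : ℝ, 0 < K ∧ ∀ (V : Type) [Fintype V] [DecidableEq V] (G : SimpleGraph V)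
      [DecidableRel G.Adj], (∀ (v : V) (p : G.Walk v v), p.IsCycle → 2 * k < p.length) →
      1 ≤ Fintype.card V →
      c * (Fintype.card V : ℝ) ^ (1 + 1 / (k : ℝ)) ≤ fr G univ →
      ∃ U : Finset V, U.Nonempty ∧ ε * Fintype.card V ≤ U.card ∧ FOpt G a U ∧
        c / 2 * (U.card : ℝ) ^ (1 + 1 / (k : ℝ)) ≤ fr G U ∧
        ∀ x ∈ U, (G.degree x : ℝ) ≤ K * (U.card : ℝ) ^ (1 / (k : ℝ)) := by
  have hkpos : (0 : ℝ) < k := by exact_mod_cast hk
  set s : ℝ := 1 + 1 / (k : ℝ) - a with hs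
  have hs0 : 0 < s := by rw [hs]; linarith
  set K0 : ℝ := max (512 / c) ((64 / c) ^ k) with hK0
  have hK0pos : 0 < K0 := lt_of_lt_of_le (by positivity) (le_max_left _ _)
  set ε : ℝ := (c / 48) ^ (1 / s) with hε
  have hε0 : 0 < ε := by positivity
  refine ⟨ε, hε0, K0 * ε⁻¹ ^ (1 / (k : ℝ)), by positivity, ?_⟩
  intro V _ _ G _ hg hn1 he
  obtain ⟨L, hLne, hL, hLdeg⟩ := low_degree_f G hk hg hc hn1 he
  obtain ⟨U, hUL, hUne, hopt, hmax⟩ := exists_fopt G L hLne a
  set n : ℝ := (Fintype.card V : ℝ) with hn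
  have hn1' : (1 : ℝ) ≤ n := by rw [hn]; exact_mod_cast hn1
  have hn0 : 0 < n := by linarith
  set m : ℕ := U.card with hm
  have hm0 : 0 < m := card_pos.2 hUne
  have hm0' : (0 : ℝ) < m := by exact_mod_cast hm0
  have hmn : (m : ℝ) ≤ n := by
    rw [hn]
    exact_mod_cast card_le_univ U
  have hLn : (L.card : ℝ) ≤ n := by
    rw [hn]
    exact_mod_cast card_le_univ L
  have hL0 : (0 : ℝ) < L.card := by exact_mod_cast card_pos.2 hLne
  have hU1 : c / 2 * n ^ s * (m : ℝ) ^ a ≤ fr G U := by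
    have h1 : c / 2 * n ^ s ≤ fr G L / (L.card : ℝ) ^ a := by
      rw [le_div_iff₀ (Real.rpow_pos_of_pos hL0 _)]
      calc c / 2 * n ^ s * (L.card : ℝ) ^ a ≤ c / 2 * n ^ s * n ^ a := by
            apply mul_le_mul_of_nonneg_left _ (by positivity)
            exact Real.rpow_le_rpow hL0.le hLn (by linarith)
        _ = c / 2 * n ^ (1 + 1 / (k : ℝ)) := by
            rw [mul_assoc, ← Real.rpow_add hn0, hs]
            ring_nf
        _ ≤ _ := hL
    have h2 := h1.trans hmax
    rw [le_div_iff₀ (Real.rpow_pos_of_pos hm0' _)] at h2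
    exact h2
  set e := U.equivFin with heq
  let φ : Fin m ↪ V := ⟨fun i => (e.symm i : V), fun i j h => by
    have h1 : e.symm i = e.symm j := Subtype.ext h
    exact e.symm.injective h1⟩
  have hφuniv : (univ : Finset (Fin m)).map φ = U := by
    ext x
    rw [mem_map]
    constructor
    · rintro ⟨i, -, rfl⟩
      exact (e.symm i).2
    · intro hx
      refine ⟨e ⟨x, hx⟩, mem_univ _, ?_⟩
      show ((e.symm (e ⟨x, hx⟩) : U) : V) = x
      rw [Equiv.symm_apply_apply]
  have hgH := cycle_comap (G := G) φ hg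
  have hmoore := moore (G.comap φ) hk hgH
  rw [Fintype.card_fin] at hmoore
  have harU : ar (G.comap φ) univ univ = ar G U U := by
    rw [ar_comap, hφuniv]
  have hfr := fr_le_ar G U
  have hsize : ε * n ≤ m := by
    rw [harU] at hmoore
    have h1 : c / 2 * n ^ s * (m : ℝ) ^ a ≤ 24 * (m : ℝ) ^ s * (m : ℝ) ^ a := by
      calc c / 2 * n ^ s * (m : ℝ) ^ a ≤ 24 * (m : ℝ) ^ (1 + 1 / (k : ℝ)) :=
            hU1.trans (hfr.trans hmoore)
        _ = 24 * (m : ℝ) ^ s * (m : ℝ) ^ a := by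
            rw [mul_assoc, ← Real.rpow_add hm0', hs]
            ring_nf
    have h2 : c / 2 * n ^ s ≤ 24 * (m : ℝ) ^ s :=
      le_of_mul_le_mul_right h1 (Real.rpow_pos_of_pos hm0' _)
    have h3 : (ε * n) ^ s ≤ (m : ℝ) ^ s := by
      rw [Real.mul_rpow hε0.le hn0.le, hε, ← Real.rpow_mul (by positivity)]
      have : 1 / s * s = 1 := by field_simp
      rw [this, Real.rpow_one]
      linarith
    exact (Real.rpow_le_rpow_iff (by positivity) hm0'.le hs0).1 h3
  refine ⟨U, hUne, hsize, hopt, ?_, ?_⟩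
  · refine le_trans ?_ hU1
    calc c / 2 * (m : ℝ) ^ (1 + 1 / (k : ℝ)) = c / 2 * (m : ℝ) ^ s * (m : ℝ) ^ a := by
          rw [mul_assoc, ← Real.rpow_add hm0', hs]
          ring_nf
      _ ≤ _ := by
          apply mul_le_mul_of_nonneg_right _ (by positivity)
          apply mul_le_mul_of_nonneg_left _ (by positivity)
          exact Real.rpow_le_rpow hm0'.le hmn hs0.le
  · intro x hx
    refine (hLdeg _ (hUL hx)).trans ?_
    rw [mul_assoc]
    apply mul_le_mul_of_nonneg_left _ hK0pos.le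
    rw [← Real.mul_rpow (by positivity) hm0'.le]
    apply Real.rpow_le_rpow hn0.le _ (by positivity)
    rw [inv_mul_eq_div, le_div_iff₀ hε0]
    linarith

end Pool.Agent.J4.H75.GF
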