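import Pool.Agent.J4.H75.GF.Cheeger
import Pool.Agent.J4.H75.GE.Spec

/-!
# Uniform mixing in bounded time
-/

set_option autoImplicit false
set_option linter.unusedSectionVars false

open Finset Matrix

namespace Pool.Agent.J4.H75.GF

open Pool.Agent.J4.H75.GE

variable {V : Type} [Fintype V] [DecidableEq V]

theorem spectral' {M : Matrix V V ℝ} (hA : M.IsHermitian) : ∃ (U : Matrix V V ℝ) (l : V → ℝ),
    Uᵀ * U = 1 ∧ U * Uᵀ = 1 ∧ M = U * diagonal l * Uᵀ := by
  refine ⟨(hA.eigenvectorUnitary : Matrix V V ℝ), hA.eigenvalues, ?_, ?_, ?_⟩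
  · have := (Matrix.mem_unitaryGroup_iff' (A := (hA.eigenvectorUnitary : Matrix V V ℝ))).1
      hA.eigenvectorUnitary.2
    rwa [Matrix.star_eq_conjTranspose, Matrix.conjTranspose_eq_transpose_of_trivial] at this
  · have := (Matrix.mem_unitaryGroup_iff (A := (hA.eigenvectorUnitary : Matrix V V ℝ))).1
      hA.eigenvectorUnitary.2
    rwa [Matrix.star_eq_conjTranspose, Matrix.conjTranspose_eq_transpose_of_trivial] at this
  · have h := hA.spectral_theorem
    conv_lhs => rw [h]
    rw [Unitary.conjStarAlgAut_apply]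
    simp [Matrix.star_eq_conjTranspose, Matrix.conjTranspose_eq_transpose_of_trivial]

/-- Entries of high powers of a matrix with small form. -/
theorem entry_bound {M : Matrix V V ℝ} (hM : M.IsHermitian) {θ B : ℝ}
    (hform : ∀ v : V → ℝ, |v ⬝ᵥ (M *ᵥ v)| ≤ θ * (v ⬝ᵥ v)) {k : ℕ}
    (hB : ∀ x, (M ^ (2 * k)) x x ≤ B) {l : ℕ} (hl : 2 * k ≤ l) (x y : V) :
    |(M ^ l) x y| ≤ θ ^ (l - 2 * k) * B := by
  obtain ⟨U, e, h1, h2, hM'⟩ := spectral' hM
  have hcol : ∀ i, (fun x => U x i) ⬝ᵥ (fun x => U x i) = 1 := by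
    intro i
    have h3 := congrFun (congrFun h1 i) i
    rw [Matrix.mul_apply, Matrix.one_apply_eq] at h3
    rw [← h3]
    rfl
  have he : ∀ i, |e i| ≤ θ := by
    intro i
    have h3 := hform (fun x => U x i)
    rw [hcol, mul_one] at h3
    have h4 : (fun x => U x i) ⬝ᵥ (M *ᵥ fun x => U x i) = e i := by
      have h5 : M *ᵥ (fun x => U x i) = fun x => e i * U x i := by
        have h6 : M * U = U * diagonal e := by
          rw [hM', Matrix.mul_assoc, h1, Matrix.mul_one]
        ext x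
        have h7 := congrFun (congrFun h6 x) i
        rw [Matrix.mul_apply, Matrix.mul_diagonal] at h7
        rw [Matrix.mulVec, dotProduct, h7]
        ring
      rw [h5, dotProduct]
      have h6 := hcol i
      rw [dotProduct] at h6
      calc ∑ x, U x i * (e i * U x i) = e i * ∑ x, U x i * U x i := by
            rw [mul_sum]
            refine sum_congr rfl fun x _ => ?_
            ring
        _ = e i := by rw [h6, mul_one]
    rwa [h4] at h3
  have hθ : ∀ i : V, 0 ≤ θ := fun i => (abs_nonneg _).trans (he i)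
  have hθ0 : 0 ≤ θ := hθ x
  have hd : ∀ x, ∑ i, e i ^ (2 * k) * U x i ^ 2 ≤ B := by
    intro x
    have h3 := hB x
    rw [hM', pow_udu h1 h2, udu_apply] at h3
    refine le_trans (le_of_eq ?_) h3
    refine sum_congr rfl fun i _ => ?_
    ring
  rw [hM', pow_udu h1 h2, udu_apply]
  refine (abs_sum_le_sum_abs _ _).trans ?_
  calc ∑ i, |e i ^ l * (U x i * U y i)|
      ≤ ∑ i, θ ^ (l - 2 * k) *
          ((e i ^ (2 * k) * U x i ^ 2 + e i ^ (2 * k) * U y i ^ 2) / 2) := by
        refine sum_le_sum fun i _ => ?_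
        have e1 : |e i ^ l| = |e i| ^ (l - 2 * k) * e i ^ (2 * k) := by
          rw [abs_pow]
          have : e i ^ (2 * k) = |e i| ^ (2 * k) := by
            rw [pow_mul, pow_mul, sq_abs]
          rw [this, ← pow_add]
          congr 1
          omega
        have e2 : |U x i * U y i| ≤ (U x i ^ 2 + U y i ^ 2) / 2 := by
          rw [abs_mul]
          nlinarith [sq_nonneg (|U x i| - |U y i|), sq_abs (U x i), sq_abs (U y i)]
        have e3 : 0 ≤ e i ^ (2 * k) := by rw [pow_mul]; positivity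
        rw [abs_mul, e1]
        calc |e i| ^ (l - 2 * k) * e i ^ (2 * k) * |U x i * U y i|
            ≤ θ ^ (l - 2 * k) * e i ^ (2 * k) * ((U x i ^ 2 + U y i ^ 2) / 2) := by
              apply mul_le_mul _ e2 (abs_nonneg _) (by positivity)
              exact mul_le_mul_of_nonneg_right
                (pow_le_pow_left₀ (abs_nonneg _) (he i) _) e3
          _ = _ := by ring
    _ = θ ^ (l - 2 * k) * ((∑ i, e i ^ (2 * k) * U x i ^ 2 +
          ∑ i, e i ^ (2 * k) * U y i ^ 2) / 2) := by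
        rw [← mul_sum, ← sum_div, sum_add_distrib]
    _ ≤ θ ^ (l - 2 * k) * B := by
        apply mul_le_mul_of_nonneg_left _ (by positivity)
        have := hd x
        have := hd y
        linarith

variable (G : SimpleGraph V) [DecidableRel G.Adj]

/-- The normalised adjacency matrix. -/
noncomputable def nP : Matrix V V ℝ := fun x y => ad G x y / (√(G.degree x) * √(G.degree y))

/-- The transition matrix of the simple random walk. -/
noncomputable def nT : Matrix V V ℝ := fun x y => ad G x y / G.degree x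

/-- The square roots of the degrees. -/
noncomputable def nφ : V → ℝ := fun x => √(G.degree x)

/-- The sum of the degrees. -/
noncomputable def vol : ℝ := ∑ x, (G.degree x : ℝ)

/-- The projection. -/
noncomputable def nJ : Matrix V V ℝ := fun x y => nφ G x * nφ G y / vol G

theorem nφ_sq (x : V) : nφ G x * nφ G x = G.degree x :=
  Real.mul_self_sqrt (Nat.cast_nonneg _)

theorem nP_symm : (nP G)ᵀ = nP G := by
  ext x y
  rw [Matrix.transpose_apply]
  unfold nP
  rw [ad_comm, mul_comm (√(G.degree y : ℝ))]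

theorem nJ_symm : (nJ G)ᵀ = nJ G := by
  ext x y
  rw [Matrix.transpose_apply]
  unfold nJ
  ring

variable {G}

theorem nφ_pos (hd : ∀ x, 0 < G.degree x) (x : V) : 0 < nφ G x :=
  Real.sqrt_pos.2 (by exact_mod_cast hd x)

theorem nP_mul_φ (hd : ∀ x, 0 < G.degree x) : nP G *ᵥ nφ G = nφ G := by
  ext x
  rw [Matrix.mulVec, dotProduct]
  have hx := nφ_pos hd x
  calc ∑ y, nP G x y * nφ G y = ∑ y, ad G x y / nφ G x := by
        refine sum_congr rfl fun y _ => ?_
        have hy := nφ_pos hd y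
        have : nP G x y = ad G x y / (nφ G x * nφ G y) := rfl
        rw [this]
        field_simp
    _ = (G.degree x : ℝ) / nφ G x := by rw [← sum_div, sum_ad]
    _ = nφ G x := by
        rw [← nφ_sq]
        field_simp

theorem vol_pos [Nonempty V] (hd : ∀ x, 0 < G.degree x) : 0 < vol G :=
  sum_pos (fun x _ => by exact_mod_cast hd x) univ_nonempty

theorem φφ : nφ G ⬝ᵥ nφ G = vol G := by
  rw [dotProduct, vol]
  exact sum_congr rfl fun x _ => nφ_sq G x

theorem nJ_mulVec (v : V → ℝ) : nJ G *ᵥ v = ((nφ G ⬝ᵥ v) / vol G) • nφ G := by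
  ext x
  rw [Matrix.mulVec, dotProduct, Pi.smul_apply, smul_eq_mul, dotProduct, sum_div, sum_mul]
  refine sum_congr rfl fun y _ => ?_
  unfold nJ
  ring

theorem nP_mul_nJ (hd : ∀ x, 0 < G.degree x) : nP G * nJ G = nJ G := by
  ext x y
  rw [Matrix.mul_apply]
  have h := congrFun (nP_mul_φ hd) x
  rw [Matrix.mulVec, dotProduct] at h
  calc ∑ z, nP G x z * nJ G z y = (∑ z, nP G x z * nφ G z) * (nφ G y / vol G) := by
        rw [sum_mul]
        refine sum_congr rfl fun z _ => ?_
        unfold nJ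
        ring
    _ = nJ G x y := by
        rw [h]
        unfold nJ
        ring

theorem nJ_mul_nP (hd : ∀ x, 0 < G.degree x) : nJ G * nP G = nJ G := by
  have h := congrArg Matrix.transpose (nP_mul_nJ hd)
  rwa [Matrix.transpose_mul, nP_symm, nJ_symm] at h

theorem nJ_mul_nJ [Nonempty V] (hd : ∀ x, 0 < G.degree x) : nJ G * nJ G = nJ G := by
  ext x y
  rw [Matrix.mul_apply]
  have hv := vol_pos hd
  have h : ∑ z, nφ G z * nφ G z = vol G := φφ
  calc ∑ z, nJ G x z * nJ G z y = (∑ z, nφ G z * nφ G z) * (nφ G x * nφ G y / vol G ^ 2) := by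
        rw [sum_mul]
        refine sum_congr rfl fun z _ => ?_
        unfold nJ
        field_simp
    _ = nJ G x y := by
        rw [h]
        unfold nJ
        field_simp

theorem nP_pow_mul_nJ (hd : ∀ x, 0 < G.degree x) (m : ℕ) : nP G ^ m * nJ G = nJ G := by
  induction m with
  | zero => simp
  | succ m ih => rw [pow_succ, Matrix.mul_assoc, nP_mul_nJ hd, ih]

theorem nQ_pow [Nonempty V] (hd : ∀ x, 0 < G.degree x) (m : ℕ) :
    (nP G - nJ G) ^ (m + 1) = nP G ^ (m + 1) - nJ G := by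
  induction m with
  | zero => simp
  | succ m ih =>
    rw [pow_succ, ih, Matrix.sub_mul, Matrix.mul_sub, Matrix.mul_sub, nP_pow_mul_nJ hd,
      nJ_mul_nP hd, nJ_mul_nJ hd, ← pow_succ]
    simp

theorem nT_pow (hd : ∀ x, 0 < G.degree x) (m : ℕ) (x y : V) :
    (nT G ^ m) x y = (nP G ^ m) x y * (nφ G y / nφ G x) := by
  induction m generalizing y with
  | zero =>
    rw [pow_zero, pow_zero, Matrix.one_apply]
    split_ifs with h
    · subst h
      rw [one_mul, div_self (nφ_pos hd x).ne']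
    · rw [zero_mul]
  | succ m ih =>
    rw [pow_succ, pow_succ, Matrix.mul_apply, Matrix.mul_apply, sum_mul]
    refine sum_congr rfl fun z _ => ?_
    rw [ih z]
    have hx := nφ_pos hd x
    have hy := nφ_pos hd y
    have hz := nφ_pos hd z
    have e1 : nT G z y = ad G z y / (nφ G z * nφ G z) := by
      unfold nT
      rw [nφ_sq]
    have e2 : nP G z y = ad G z y / (nφ G z * nφ G y) := rfl
    rw [e1, e2]
    field_simp

theorem nP_nonneg (x y : V) : 0 ≤ nP G x y := by
  unfold nP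
  exact div_nonneg (ad_nonneg G x y) (by positivity)

theorem nP_pow_nonneg (m : ℕ) (x y : V) : 0 ≤ (nP G ^ m) x y := by
  induction m generalizing y with
  | zero =>
    rw [pow_zero, Matrix.one_apply]
    split_ifs <;> norm_num
  | succ m ih =>
    rw [pow_succ, Matrix.mul_apply]
    exact sum_nonneg fun z _ => mul_nonneg (ih z) (nP_nonneg z y)

/-- The powers of the normalised matrix and of the adjacency matrix. -/
theorem nP_pow_le {t : ℝ} (ht : 0 < t) (hd : ∀ x, t ≤ (G.degree x : ℝ)) (m : ℕ) (x y : V) :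
    t ^ m * (nP G ^ m) x y ≤ (G.adjMatrix ℝ ^ m) x y := by
  induction m generalizing y with
  | zero => simp
  | succ m ih =>
    rw [pow_succ, pow_succ (nP G), pow_succ (G.adjMatrix ℝ), Matrix.mul_apply, Matrix.mul_apply,
      mul_sum]
    refine sum_le_sum fun z _ => ?_
    have e1 : t * nP G z y ≤ G.adjMatrix ℝ z y := by
      have e2 : G.adjMatrix ℝ z y = ad G z y := by
        rw [SimpleGraph.adjMatrix_apply]; rfl
      have e3 : t ≤ nφ G z * nφ G y := by
        have a1 : √t ≤ nφ G z := Real.sqrt_le_sqrt (hd z)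
        have a2 : √t ≤ nφ G y := Real.sqrt_le_sqrt (hd y)
        calc t = √t * √t := (Real.mul_self_sqrt ht.le).symm
          _ ≤ _ := mul_le_mul a1 a2 (Real.sqrt_nonneg _) ((Real.sqrt_nonneg _).trans a1)
      have e4 : nP G z y = ad G z y / (nφ G z * nφ G y) := rfl
      have e5 : 0 < nφ G z * nφ G y := lt_of_lt_of_le ht e3
      rw [e2, e4, mul_div_assoc', div_le_iff₀ e5, mul_comm t]
      exact mul_le_mul_of_nonneg_left e3 (ad_nonneg G z y)
    calc t ^ m * t * ((nP G ^ m) x z * nP G z y)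
        = (t ^ m * (nP G ^ m) x z) * (t * nP G z y) := by ring
      _ ≤ (G.adjMatrix ℝ ^ m) x z * G.adjMatrix ℝ z y :=
          mul_le_mul (ih z) e1 (mul_nonneg ht.le (nP_nonneg z y))
            (le_trans (mul_nonneg (by positivity) (nP_pow_nonneg m x z)) (ih z))

/-- The form of the deflated matrix. -/
theorem form_Q [Nonempty V] {t Δ : ℝ} (ht : 0 < t) (hΔ : ∀ x, (G.degree x : ℝ) ≤ Δ)
    (hΔ0 : 0 < Δ) (hd : ∀ x, t ≤ (G.degree x : ℝ))
    (hexp : ∀ X : Finset V, 2 * X.card ≤ Fintype.card V → t * X.card ≤ ar G X Xᶜ)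
    (hrob : ∀ L R : Finset V, Disjoint L R →
      t * (L ∪ R).card ≤ ar G L L + ar G R R + ar G (L ∪ R) (L ∪ R)ᶜ) (v : V → ℝ) :
    |v ⬝ᵥ ((nP G - nJ G) *ᵥ v)| ≤ (1 - t ^ 2 / (2 * Δ ^ 2)) * (v ⬝ᵥ v) := by
  have hd' : ∀ x, 0 < G.degree x := by
    intro x
    have : (0 : ℝ) < G.degree x := lt_of_lt_of_le ht (hd x)
    exact_mod_cast this
  have hv := vol_pos hd'
  set c := (nφ G ⬝ᵥ v) / vol G with hc
  set w : V → ℝ := v - c • nφ G with hw
  have hφw : nφ G ⬝ᵥ w = 0 := by
    rw [hw, dotProduct_sub, dotProduct_smul, φφ, smul_eq_mul, hc]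
    field_simp
    ring
  have hvw : v = w + c • nφ G := by rw [hw]; simp
  have hQv : (nP G - nJ G) *ᵥ v = nP G *ᵥ w := by
    rw [Matrix.sub_mulVec, nJ_mulVec, ← hc]
    conv_lhs => rw [hvw]
    rw [Matrix.mulVec_add, Matrix.mulVec_smul, nP_mul_φ hd']
    simp
  have hφP : nφ G ⬝ᵥ (nP G *ᵥ w) = 0 := by
    rw [Matrix.dotProduct_mulVec, ← Matrix.mulVec_transpose, nP_symm, nP_mul_φ hd', hφw]
  have h1 : v ⬝ᵥ ((nP G - nJ G) *ᵥ v) = w ⬝ᵥ (nP G *ᵥ w) := by
    rw [hQv]
    conv_lhs => rw [hvw]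
    rw [add_dotProduct, smul_dotProduct, hφP]
    simp
  have h2 : v ⬝ᵥ v = w ⬝ᵥ w + c ^ 2 * vol G := by
    conv_lhs => rw [hvw]
    rw [add_dotProduct, dotProduct_add, dotProduct_add, smul_dotProduct, smul_dotProduct,
      dotProduct_smul, dotProduct_smul, dotProduct_comm w (nφ G), hφw, φφ]
    simp only [smul_eq_mul]
    ring
  set f : V → ℝ := fun x => w x / nφ G x with hf
  have hf0 : ∑ x, (G.degree x : ℝ) * f x = 0 := by
    rw [← hφw, dotProduct]
    refine sum_congr rfl fun x _ => ?_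
    have := nφ_pos hd' x
    rw [hf, ← nφ_sq]
    field_simp
  have h3 := form_bounds ht hΔ hΔ0 hexp hrob hf0
  have h4 : ∑ x, (G.degree x : ℝ) * f x ^ 2 = w ⬝ᵥ w := by
    rw [dotProduct]
    refine sum_congr rfl fun x _ => ?_
    have := nφ_pos hd' x
    rw [hf, ← nφ_sq]
    field_simp
  have h5 : ∑ x, ∑ y, ad G x y * (f x * f y) = w ⬝ᵥ (nP G *ᵥ w) := by
    rw [dotProduct]
    refine sum_congr rfl fun x _ => ?_
    rw [Matrix.mulVec, dotProduct, mul_sum]
    refine sum_congr rfl fun y _ => ?_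
    have hx := nφ_pos hd' x
    have hy := nφ_pos hd' y
    have e2 : nP G x y = ad G x y / (nφ G x * nφ G y) := rfl
    rw [hf, e2]
    field_simp
  rw [h4, h5] at h3
  rw [h1, h2]
  refine h3.trans ?_
  have hθ : 0 ≤ 1 - t ^ 2 / (2 * Δ ^ 2) := by
    have h6 : t ≤ Δ := by
      obtain ⟨x⟩ := ‹Nonempty V›
      exact (hd x).trans (hΔ x)
    rw [sub_nonneg, div_le_one (by positivity)]
    nlinarith
  apply mul_le_mul_of_nonneg_left _ hθ
  have : 0 ≤ c ^ 2 * vol G := by positivity
  linarith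

/-- **Uniform mixing.** -/
theorem mixing [Nonempty V] {k : ℕ} (hk : 1 ≤ k)
    (hg : ∀ (v : V) (p : G.Walk v v), p.IsCycle → 2 * k < p.length)
    {t Δ : ℝ} (ht : 0 < t) (hΔ : ∀ x, (G.degree x : ℝ) ≤ Δ)
    (hΔ0 : 0 < Δ) (hd : ∀ x, t ≤ (G.degree x : ℝ))
    (hexp : ∀ X : Finset V, 2 * X.card ≤ Fintype.card V → t * X.card ≤ ar G X Xᶜ)
    (hrob : ∀ L R : Finset V, Disjoint L R →
      t * (L ∪ R).card ≤ ar G L L + ar G R R + ar G (L ∪ R) (L ∪ R)ᶜ)
    {l : ℕ} (hl : 2 * k ≤ l) (x y : V) :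
    |(nP G ^ l) x y - nφ G x * nφ G y / vol G| ≤
      (1 - t ^ 2 / (2 * Δ ^ 2)) ^ (l - 2 * k) * ((4 * Δ) ^ k / t ^ (2 * k)) := by
  have hd' : ∀ x, 0 < G.degree x := by
    intro x
    have : (0 : ℝ) < G.degree x := lt_of_lt_of_le ht (hd x)
    exact_mod_cast this
  have hherm : (nP G - nJ G).IsHermitian := by
    rw [Matrix.IsHermitian, Matrix.conjTranspose_eq_transpose_of_trivial, Matrix.transpose_sub,
      nP_symm, nJ_symm]
  have hB : ∀ x, ((nP G - nJ G) ^ (2 * k)) x x ≤ (4 * Δ) ^ k / t ^ (2 * k) := by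
    intro x
    have e1 : (nP G - nJ G) ^ (2 * k) = nP G ^ (2 * k) - nJ G := by
      have := nQ_pow hd' (2 * k - 1)
      rwa [show 2 * k - 1 + 1 = 2 * k by omega] at this
    rw [e1, Matrix.sub_apply]
    have e2 : 0 ≤ nJ G x x := by
      unfold nJ
      rw [nφ_sq]
      exact div_nonneg (Nat.cast_nonneg _) (vol_pos hd').le
    have e3 := nP_pow_le ht hd (2 * k) x x
    have e4 := closed_walks G hg hΔ0 hΔ x
    have e5 : (nP G ^ (2 * k)) x x ≤ (4 * Δ) ^ k / t ^ (2 * k) := by
      rw [le_div_iff₀ (by positivity)]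
      linarith
    linarith
  have h := entry_bound hherm (form_Q ht hΔ hΔ0 hd hexp hrob) hB hl x y
  have e1 : (nP G - nJ G) ^ l = nP G ^ l - nJ G := by
    have := nQ_pow hd' (l - 1)
    rwa [show l - 1 + 1 = l by omega] at this
  rw [e1, Matrix.sub_apply] at h
  exact h

end Pool.Agent.J4.H75.GF
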