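import Pool.Agent.J4.H75.GF.Mix

/-!
# From walks to paths
-/

set_option autoImplicit false
set_option linter.unusedSectionVars false

open Finset Matrix

namespace Pool.Agent.J4.H75.GF

open Pool.Agent.J4.H75.GE

/-- A walk which is not a path contains a closed walk. -/
theorem not_path_decomp {V : Type} {G : SimpleGraph V} {x y : V} (p : G.Walk x y)
    (hp : ¬ p.IsPath) : ∃ (z : V) (q : G.Walk x z) (r : G.Walk z z) (s : G.Walk z y),
      1 ≤ r.length ∧ p = q.append (r.append s) := by
  induction p with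
  | nil => exact absurd SimpleGraph.Walk.IsPath.nil hp
  | @cons u v w h p' ih =>
    by_cases hp' : p'.IsPath
    · rw [SimpleGraph.Walk.cons_isPath_iff] at hp
      have hu : u ∈ p'.support := by
        by_contra hcon
        exact hp ⟨hp', hcon⟩
      rw [SimpleGraph.Walk.mem_support_iff_exists_append] at hu
      obtain ⟨q, r, rfl⟩ := hu
      exact ⟨u, SimpleGraph.Walk.nil, SimpleGraph.Walk.cons h q, r, by simp, by simp⟩
    · obtain ⟨z, q, r, s, h1, h2⟩ := ih hp'
      exact ⟨z, SimpleGraph.Walk.cons h q, r, s, h1, by rw [h2]; simp⟩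

variable {V : Type} [Fintype V] [DecidableEq V] (G : SimpleGraph V) [DecidableRel G.Adj]

/-- The number of walks of length `l` from `x` to `y`. -/
def N (l : ℕ) (x y : V) : ℝ := ((G.finsetWalkLength l x y).card : ℝ)

theorem pow_eq_N (l : ℕ) (x y : V) : (G.adjMatrix ℝ ^ l) x y = N G l x y := by
  rw [SimpleGraph.adjMatrix_pow_apply_eq_card_walk, SimpleGraph.card_set_walk_length_eq]
  rfl

theorem N_nonneg (l : ℕ) (x y : V) : 0 ≤ N G l x y := Nat.cast_nonneg _

theorem N_zero {x y : V} (h : x ≠ y) : N G 0 x y = 0 := by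
  rw [← pow_eq_N, pow_zero, Matrix.one_apply_ne h]

theorem N_add (a b : ℕ) (x y : V) : ∑ z, N G a x z * N G b z y = N G (a + b) x y := by
  rw [← pow_eq_N, pow_add, Matrix.mul_apply]
  refine sum_congr rfl fun z _ => ?_
  rw [pow_eq_N, pow_eq_N]

variable {G}

theorem adj_eq_ad (x y : V) : G.adjMatrix ℝ x y = ad G x y := by
  rw [SimpleGraph.adjMatrix_apply]
  rfl

theorem row_sum {Δ : ℝ} (hΔ : ∀ x, (G.degree x : ℝ) ≤ Δ) (hΔ0 : 0 ≤ Δ) (a : ℕ) (x : V) :
    ∑ y, N G a x y ≤ Δ ^ a := by
  induction a with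
  | zero =>
    have : ∑ y, N G 0 x y = 1 := by
      rw [Finset.sum_eq_single x]
      · rw [← pow_eq_N, pow_zero, Matrix.one_apply_eq]
      · intro y _ hy
        exact N_zero G (Ne.symm hy)
      · intro h
        exact absurd (mem_univ x) h
    rw [this, pow_zero]
  | succ a ih =>
    have h1 : ∑ y, N G (a + 1) x y = ∑ z, N G a x z * (G.degree z : ℝ) := by
      calc ∑ y, N G (a + 1) x y = ∑ y, ∑ z, N G a x z * N G 1 z y := by
            refine sum_congr rfl fun y _ => ?_
            rw [N_add]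
        _ = ∑ z, ∑ y, N G a x z * N G 1 z y := sum_comm
        _ = ∑ z, N G a x z * (G.degree z : ℝ) := by
            refine sum_congr rfl fun z _ => ?_
            rw [← mul_sum]
            congr 1
            rw [← sum_ad]
            refine sum_congr rfl fun y _ => ?_
            rw [← pow_eq_N, pow_one, adj_eq_ad]
    rw [h1, pow_succ]
    calc ∑ z, N G a x z * (G.degree z : ℝ) ≤ ∑ z, N G a x z * Δ :=
          sum_le_sum fun z _ => mul_le_mul_of_nonneg_left (hΔ z) (N_nonneg G a x z)
      _ = (∑ z, N G a x z) * Δ := by rw [sum_mul]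
      _ ≤ Δ ^ a * Δ := mul_le_mul_of_nonneg_right ih hΔ0

theorem N_le_one {Δ : ℝ} (hΔ : ∀ x, (G.degree x : ℝ) ≤ Δ) (hΔ0 : 0 ≤ Δ) (a : ℕ) (x y : V) :
    N G (a + 1) x y ≤ Δ ^ a := by
  rw [← N_add]
  calc ∑ z, N G a x z * N G 1 z y ≤ ∑ z, N G a x z * 1 := by
        refine sum_le_sum fun z _ => mul_le_mul_of_nonneg_left ?_ (N_nonneg G a x z)
        rw [← pow_eq_N, pow_one, SimpleGraph.adjMatrix_apply]
        split_ifs <;> norm_num
    _ = ∑ z, N G a x z := by simp
    _ ≤ Δ ^ a := row_sum hΔ hΔ0 a x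

theorem adj_form {Δ : ℝ} (hΔ : ∀ x, (G.degree x : ℝ) ≤ Δ) (v : V → ℝ) :
    |v ⬝ᵥ (G.adjMatrix ℝ *ᵥ v)| ≤ Δ * (v ⬝ᵥ v) := by
  have e1 : v ⬝ᵥ (G.adjMatrix ℝ *ᵥ v) = ∑ x, ∑ y, ad G x y * (v x * v y) := by
    rw [dotProduct]
    refine sum_congr rfl fun x _ => ?_
    rw [Matrix.mulVec, dotProduct, mul_sum]
    refine sum_congr rfl fun y _ => ?_
    rw [adj_eq_ad]
    ring
  rw [e1]
  calc |∑ x, ∑ y, ad G x y * (v x * v y)| ≤ ∑ x, ∑ y, ad G x y * ((v x ^ 2 + v y ^ 2) / 2) := by
        refine (abs_sum_le_sum_abs _ _).trans (sum_le_sum fun x _ => ?_)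
        refine (abs_sum_le_sum_abs _ _).trans (sum_le_sum fun y _ => ?_)
        rw [abs_mul, abs_of_nonneg (ad_nonneg G x y)]
        apply mul_le_mul_of_nonneg_left _ (ad_nonneg G x y)
        rw [abs_mul]
        nlinarith [sq_nonneg (|v x| - |v y|), sq_abs (v x), sq_abs (v y)]
    _ = ∑ x, (G.degree x : ℝ) * v x ^ 2 := by
        have : ∑ x, ∑ y, ad G x y * ((v x ^ 2 + v y ^ 2) / 2) =
            (∑ x, ∑ y, ad G x y * v x ^ 2 + ∑ x, ∑ y, ad G x y * v y ^ 2) / 2 := by
          rw [← sum_add_distrib, sum_div]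
          refine sum_congr rfl fun x _ => ?_
          rw [← sum_add_distrib, sum_div]
          refine sum_congr rfl fun y _ => ?_
          ring
        rw [this, sum_ad_left G (fun x => v x ^ 2), sum_ad_right G (fun x => v x ^ 2)]
        ring
    _ ≤ ∑ x, Δ * v x ^ 2 :=
        sum_le_sum fun x _ => mul_le_mul_of_nonneg_right (hΔ x) (sq_nonneg _)
    _ = Δ * (v ⬝ᵥ v) := by
        rw [← mul_sum, dotProduct]
        congr 1
        exact sum_congr rfl fun x _ => sq (v x)

theorem N_le_two {k : ℕ} (hg : ∀ (v : V) (p : G.Walk v v), p.IsCycle → 2 * k < p.length)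
    {Δ : ℝ} (hΔ : ∀ x, (G.degree x : ℝ) ≤ Δ) (hΔ0 : 0 < Δ) {a : ℕ} (ha : 2 * k ≤ a) (x y : V) :
    N G a x y ≤ 4 ^ k * Δ ^ (a - k) := by
  have h := entry_bound (adj_herm G) (adj_form hΔ) (fun x => closed_walks G hg hΔ0 hΔ x) ha x y
  rw [pow_eq_N] at h
  refine (le_abs_self _).trans (h.trans (le_of_eq ?_))
  rw [mul_pow, mul_comm, mul_assoc, ← pow_add]
  congr 2
  omega

/-- Products of two walk counts. -/
theorem N_mul_le {k : ℕ} (hg : ∀ (v : V) (p : G.Walk v v), p.IsCycle → 2 * k < p.length)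
    {Δ : ℝ} (hΔ : ∀ x, (G.degree x : ℝ) ≤ Δ) (hΔ0 : 0 < Δ) {a b l : ℕ} (ha : 1 ≤ a) (hb : 1 ≤ b)
    (hab : a + b = l) (hl : 4 * k ≤ l) (x y x' y' : V) :
    N G a x y * N G b x' y' ≤ 4 ^ k * Δ ^ (l - k - 1) := by
  obtain ⟨a', rfl⟩ : ∃ a', a = a' + 1 := ⟨a - 1, by omega⟩
  obtain ⟨b', rfl⟩ : ∃ b', b = b' + 1 := ⟨b - 1, by omega⟩
  rcases le_total (2 * k) (b' + 1) with h | h
  · calc N G (a' + 1) x y * N G (b' + 1) x' y' ≤ Δ ^ a' * (4 ^ k * Δ ^ (b' + 1 - k)) :=
          mul_le_mul (N_le_one hΔ hΔ0.le a' x y) (N_le_two hg hΔ hΔ0 h x' y') (N_nonneg _ _ _ _)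
            (by positivity)
      _ = 4 ^ k * (Δ ^ a' * Δ ^ (b' + 1 - k)) := by ring
      _ = _ := by
          rw [← pow_add]
          congr 2
          omega
  · calc N G (a' + 1) x y * N G (b' + 1) x' y' ≤ (4 ^ k * Δ ^ (a' + 1 - k)) * Δ ^ b' :=
          mul_le_mul (N_le_two hg hΔ hΔ0 (by omega) x y) (N_le_one hΔ hΔ0.le b' x' y')
            (N_nonneg _ _ _ _) (by positivity)
      _ = 4 ^ k * (Δ ^ (a' + 1 - k) * Δ ^ b') := by ring
      _ = _ := by
          rw [← pow_add]
          congr 2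
          omega

open Classical in
/-- Walks through a given vertex. -/
theorem hits_le (l : ℕ) (x y z : V) :
    (((G.finsetWalkLength l x y).filter fun p => z ∈ p.support).card : ℝ) ≤
      ∑ i ∈ range (l + 1), N G i x z * N G (l - i) z y := by
  have hsub : ((G.finsetWalkLength l x y).filter fun p => z ∈ p.support) ⊆
      (range (l + 1)).biUnion fun i =>
        ((G.finsetWalkLength i x z) ×ˢ (G.finsetWalkLength (l - i) z y)).image
          fun qr => qr.1.append qr.2 := by
    intro p hp
    rw [mem_filter, SimpleGraph.mem_finsetWalkLength_iff,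
      SimpleGraph.Walk.mem_support_iff_exists_append] at hp
    obtain ⟨hl, q, r, rfl⟩ := hp
    rw [SimpleGraph.Walk.length_append] at hl
    rw [mem_biUnion]
    refine ⟨q.length, by rw [mem_range]; omega, ?_⟩
    rw [mem_image]
    refine ⟨(q, r), ?_, rfl⟩
    rw [mem_product, SimpleGraph.mem_finsetWalkLength_iff, SimpleGraph.mem_finsetWalkLength_iff]
    exact ⟨rfl, by simp only; omega⟩
  have h1 : ((G.finsetWalkLength l x y).filter fun p => z ∈ p.support).card ≤
      ∑ i ∈ range (l + 1), (G.finsetWalkLength i x z).card *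
        (G.finsetWalkLength (l - i) z y).card := by
    refine (card_le_card hsub).trans (card_biUnion_le.trans (sum_le_sum fun i _ => ?_))
    rw [← card_product]
    exact card_image_le
  unfold N
  exact_mod_cast h1

open Classical in
/-- Walks which are not paths. -/
theorem nonpaths_le (l : ℕ) (x y : V) :
    (((G.finsetWalkLength l x y).filter fun p => ¬ p.IsPath).card : ℝ) ≤
      ∑ i ∈ range (l + 1), ∑ j ∈ (range (l + 1)).filter (fun j => 1 ≤ j ∧ i + j ≤ l),
        ∑ z, N G i x z * (N G j z z * N G (l - i - j) z y) := by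
  have hsub : ((G.finsetWalkLength l x y).filter fun p => ¬ p.IsPath) ⊆
      (range (l + 1)).biUnion fun i =>
        ((range (l + 1)).filter (fun j => 1 ≤ j ∧ i + j ≤ l)).biUnion fun j =>
          univ.biUnion fun z =>
            ((G.finsetWalkLength i x z) ×ˢ ((G.finsetWalkLength j z z) ×ˢ
              (G.finsetWalkLength (l - i - j) z y))).image
              fun qrs => qrs.1.append (qrs.2.1.append qrs.2.2) := by
    intro p hp
    rw [mem_filter, SimpleGraph.mem_finsetWalkLength_iff] at hp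
    obtain ⟨hl, hnp⟩ := hp
    obtain ⟨z, q, r, s, h1, rfl⟩ := not_path_decomp p hnp
    rw [SimpleGraph.Walk.length_append, SimpleGraph.Walk.length_append] at hl
    rw [mem_biUnion]
    refine ⟨q.length, by rw [mem_range]; omega, ?_⟩
    rw [mem_biUnion]
    refine ⟨r.length, by rw [mem_filter, mem_range]; omega, ?_⟩
    rw [mem_biUnion]
    refine ⟨z, mem_univ _, ?_⟩
    rw [mem_image]
    refine ⟨(q, (r, s)), ?_, rfl⟩
    rw [mem_product, mem_product, SimpleGraph.mem_finsetWalkLength_iff,
      SimpleGraph.mem_finsetWalkLength_iff, SimpleGraph.mem_finsetWalkLength_iff]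
    exact ⟨rfl, rfl, by simp only; omega⟩
  have h1 : ((G.finsetWalkLength l x y).filter fun p => ¬ p.IsPath).card ≤
      ∑ i ∈ range (l + 1), ∑ j ∈ (range (l + 1)).filter (fun j => 1 ≤ j ∧ i + j ≤ l),
        ∑ z, (G.finsetWalkLength i x z).card * ((G.finsetWalkLength j z z).card *
          (G.finsetWalkLength (l - i - j) z y).card) := by
    refine (card_le_card hsub).trans (card_biUnion_le.trans (sum_le_sum fun i _ => ?_))
    refine card_biUnion_le.trans (sum_le_sum fun j _ => ?_)
    refine card_biUnion_le.trans (sum_le_sum fun z _ => ?_)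
    rw [← card_product, ← card_product]
    exact card_image_le
  unfold N
  exact_mod_cast h1

open Classical in
/-- **Most walks of length `l` between two vertices are paths avoiding a given small set.** -/
theorem paths_ge {k : ℕ} (hg : ∀ (v : V) (p : G.Walk v v), p.IsCycle → 2 * k < p.length)
    {Δ : ℝ} (hΔ : ∀ x, (G.degree x : ℝ) ≤ Δ) (hΔ0 : 0 < Δ) {l : ℕ} (hl : 4 * k ≤ l)
    {x y : V} (hxy : x ≠ y) (S : Finset V) (hx : x ∉ S) (hy : y ∉ S) :
    N G l x y - ((l + 1 : ℝ) ^ 2 + S.card * (l + 1)) * (4 ^ k * Δ ^ (l - k - 1)) ≤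
      (((G.finsetWalkLength l x y).filter fun p => p.IsPath ∧ ∀ z ∈ S, z ∉ p.support).card : ℝ) := by
  set C : ℝ := 4 ^ k * Δ ^ (l - k - 1) with hC
  have hC0 : 0 ≤ C := by positivity
  set W := G.finsetWalkLength l x y with hW
  have hcover : W ⊆ (W.filter fun p => p.IsPath ∧ ∀ z ∈ S, z ∉ p.support) ∪
      ((W.filter fun p => ¬ p.IsPath) ∪ S.biUnion fun z => W.filter fun p => z ∈ p.support) := by
    intro p hp
    rw [mem_union, mem_union, mem_filter, mem_filter, mem_biUnion]
    by_cases h1 : p.IsPath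
    · by_cases h2 : ∀ z ∈ S, z ∉ p.support
      · exact Or.inl ⟨hp, h1, h2⟩
      · push Not at h2
        obtain ⟨z, hz, hzp⟩ := h2
        exact Or.inr (Or.inr ⟨z, hz, by rw [mem_filter]; exact ⟨hp, hzp⟩⟩)
    · exact Or.inr (Or.inl ⟨hp, h1⟩)
  have hcard : (W.card : ℝ) ≤ ((W.filter fun p => p.IsPath ∧ ∀ z ∈ S, z ∉ p.support).card : ℝ) +
      (((W.filter fun p => ¬ p.IsPath).card : ℝ) +
        ∑ z ∈ S, ((W.filter fun p => z ∈ p.support).card : ℝ)) := by
    have h1 := (card_le_card hcover).trans (card_union_le _ _)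
    have h2 := card_union_le (W.filter fun p => ¬ p.IsPath)
      (S.biUnion fun z => W.filter fun p => z ∈ p.support)
    have h3 : (S.biUnion fun z => W.filter fun p => z ∈ p.support).card ≤
      ∑ z ∈ S, (W.filter fun p => z ∈ p.support).card := card_biUnion_le
    have h4 : W.card ≤ (W.filter fun p => p.IsPath ∧ ∀ z ∈ S, z ∉ p.support).card +
      ((W.filter fun p => ¬ p.IsPath).card + ∑ z ∈ S, (W.filter fun p => z ∈ p.support).card) := by
      omega
    exact_mod_cast h4
  have hbad1 : ((W.filter fun p => ¬ p.IsPath).card : ℝ) ≤ (l + 1 : ℝ) ^ 2 * C := by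
    refine (nonpaths_le l x y).trans ?_
    have h1 : ∀ i ∈ range (l + 1), ∀ j ∈ (range (l + 1)).filter (fun j => 1 ≤ j ∧ i + j ≤ l),
        ∑ z, N G i x z * (N G j z z * N G (l - i - j) z y) ≤ C := by
      intro i _ j hj
      rw [mem_filter] at hj
      obtain ⟨-, hj1, hj2⟩ := hj
      by_cases hjl : j = l
      · have hi : i = 0 := by omega
        subst hi
        subst hjl
        rw [Finset.sum_eq_zero]
        · exact hC0
        · intro z _
          by_cases hz : x = z
          · subst hz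
            rw [show j - 0 - j = 0 by omega, N_zero G hxy]
            ring
          · rw [N_zero G hz]
            ring
      · have hne : (univ : Finset V).Nonempty := ⟨x, mem_univ _⟩
        obtain ⟨z0, -, hz0⟩ := exists_max_image (univ : Finset V) (fun z => N G j z z) hne
        calc ∑ z, N G i x z * (N G j z z * N G (l - i - j) z y)
            ≤ ∑ z, N G j z0 z0 * (N G i x z * N G (l - i - j) z y) := by
              refine sum_le_sum fun z _ => ?_
              have h2 := hz0 z (mem_univ _)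
              have h3 := N_nonneg G i x z
              have h4 := N_nonneg G (l - i - j) z y
              calc N G i x z * (N G j z z * N G (l - i - j) z y)
                  = N G j z z * (N G i x z * N G (l - i - j) z y) := by ring
                _ ≤ _ := mul_le_mul_of_nonneg_right h2 (mul_nonneg h3 h4)
          _ = N G j z0 z0 * N G (i + (l - i - j)) x y := by rw [← mul_sum, N_add]
          _ ≤ C := N_mul_le hg hΔ hΔ0 hj1 (by omega) (by omega) hl _ _ _ _
    calc ∑ i ∈ range (l + 1), ∑ j ∈ (range (l + 1)).filter (fun j => 1 ≤ j ∧ i + j ≤ l),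
          ∑ z, N G i x z * (N G j z z * N G (l - i - j) z y)
        ≤ ∑ i ∈ range (l + 1), ∑ j ∈ range (l + 1), C := by
          refine sum_le_sum fun i hi => ?_
          refine (sum_le_sum fun j hj => h1 i hi j hj).trans ?_
          exact sum_le_sum_of_subset_of_nonneg (filter_subset _ _) fun _ _ _ => hC0
      _ = (l + 1 : ℝ) ^ 2 * C := by
          simp only [sum_const, card_range, nsmul_eq_mul]
          push_cast
          ring
  have hbad2 : ∀ z ∈ S, ((W.filter fun p => z ∈ p.support).card : ℝ) ≤ (l + 1 : ℝ) * C := by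
    intro z hz
    refine (hits_le l x y z).trans ?_
    calc ∑ i ∈ range (l + 1), N G i x z * N G (l - i) z y ≤ ∑ i ∈ range (l + 1), C := by
          refine sum_le_sum fun i hi => ?_
          rw [mem_range] at hi
          by_cases h0 : i = 0
          · subst h0
            rw [N_zero G (fun h : x = z => hx (by rw [h]; exact hz)), zero_mul]
            exact hC0
          · by_cases h1 : i = l
            · subst h1
              rw [show i - i = 0 by omega, N_zero G (fun h : z = y => hy (by rw [← h]; exact hz)), mul_zero]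
              exact hC0
            · exact N_mul_le hg hΔ hΔ0 (by omega) (by omega) (by omega) hl _ _ _ _
      _ = (l + 1 : ℝ) * C := by
          simp only [sum_const, card_range, nsmul_eq_mul]
          push_cast
          ring
  have hbad3 : ∑ z ∈ S, ((W.filter fun p => z ∈ p.support).card : ℝ) ≤
      S.card * ((l + 1 : ℝ) * C) := by
    calc ∑ z ∈ S, ((W.filter fun p => z ∈ p.support).card : ℝ) ≤ ∑ z ∈ S, (l + 1 : ℝ) * C :=
          sum_le_sum hbad2
      _ = _ := by rw [sum_const, nsmul_eq_mul]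
  have hN : N G l x y = (W.card : ℝ) := rfl
  rw [hN]
  nlinarith

end Pool.Agent.J4.H75.GF
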