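import Pool.Agent.J4.H75.GF.Frus
import Pool.Agent.J4.H75.GF.Paths

/-!
# The optimal piece: walks and paths
-/

set_option autoImplicit false
set_option linter.unusedSectionVars false

open Finset Matrix

namespace Pool.Agent.J4.H75.GF

open Pool.Agent.J4.H75.GE Pool.TH815.GR

/-- The expansion properties of the optimal piece. -/
structure Good (k : ℕ) (h K : ℝ) {m : ℕ} (H : SimpleGraph (Fin m)) [DecidableRel H.Adj] : Prop where
  girth : ∀ (v : Fin m) (p : H.Walk v v), p.IsCycle → 2 * k < p.length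
  deg_le : ∀ x, (H.degree x : ℝ) ≤ K * (m : ℝ) ^ (1 / (k : ℝ))
  exp : ∀ X : Finset (Fin m), 2 * X.card ≤ m →
    h * (m : ℝ) ^ (1 / (k : ℝ)) * X.card ≤ ar H X Xᶜ
  rob : ∀ L R : Finset (Fin m), Disjoint L R →
    h * (m : ℝ) ^ (1 / (k : ℝ)) * (L ∪ R).card ≤ ar H L L + ar H R R + ar H (L ∪ R) (L ∪ R)ᶜ

theorem exists_good {k : ℕ} (hk : 1 ≤ k) {c : ℝ} (hc : 0 < c) :
    ∃ (δ h K : ℝ), 0 < δ ∧ 0 < h ∧ 0 < K ∧ ∀ (V : Type) [Fintype V] [DecidableEq V]
      (G : SimpleGraph V) [DecidableRel G.Adj],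
      (∀ (v : V) (p : G.Walk v v), p.IsCycle → 2 * k < p.length) → 1 ≤ Fintype.card V →
      c * (Fintype.card V : ℝ) ^ (1 + 1 / (k : ℝ)) ≤ fr G univ →
      ∃ (m : ℕ) (φ : Fin m ↪ V), 0 < m ∧ δ * Fintype.card V ≤ m ∧ Good k h K (G.comap φ) := by
  have hkpos : (0 : ℝ) < k := by exact_mod_cast hk
  set a : ℝ := 1 + 1 / (2 * (k : ℝ)) with ha
  have hk2 : 0 < 1 / (2 * (k : ℝ)) := by positivity
  have ha1 : 1 < a := by rw [ha]; linarith
  have ha2 : a < 1 + 1 / (k : ℝ) := by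
    rw [ha]
    have : 1 / (2 * (k : ℝ)) < 1 / (k : ℝ) := by
      apply one_div_lt_one_div_of_lt hkpos
      linarith
    linarith
  obtain ⟨ε, hε, K, hK, hmain⟩ := exists_far hk hc ha1 ha2
  set κ : ℝ := 1 - 2 ^ (1 - a) with hκ
  have hκ0 : 0 < κ := by
    have : (2 : ℝ) ^ (1 - a) < 1 := Real.rpow_lt_one_of_one_lt_of_neg (by norm_num) (by linarith)
    rw [hκ]; linarith
  refine ⟨ε, κ * c / 8, K, hε, by positivity, hK, ?_⟩
  intro V _ _ G _ hg hn hfr
  obtain ⟨U, hUne, hsize, hopt, hU, hdeg⟩ := hmain V G hg hn hfr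
  set m : ℕ := U.card with hm
  have hm0 : 0 < m := card_pos.2 hUne
  have hm0' : (0 : ℝ) < m := by exact_mod_cast hm0
  set e := U.equivFin with heq
  let φ : Fin m ↪ V := ⟨fun i => (e.symm i : V), fun i j h => by
    have h1 : e.symm i = e.symm j := Subtype.ext h
    exact e.symm.injective h1⟩
  have hφU : ∀ i, φ i ∈ U := fun i => (e.symm i).2
  have hφuniv : (univ : Finset (Fin m)).map φ = U := by
    ext x
    rw [mem_map]
    constructor
    · rintro ⟨i, -, rfl⟩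
      exact hφU i
    · intro hx
      refine ⟨e ⟨x, hx⟩, mem_univ _, ?_⟩
      show ((e.symm (e ⟨x, hx⟩) : U) : V) = x
      rw [Equiv.symm_apply_apply]
  have hsub : ∀ X : Finset (Fin m), X.map φ ⊆ U := by
    intro X x hx
    rw [mem_map] at hx
    obtain ⟨i, -, rfl⟩ := hx
    exact hφU i
  have hcompl : ∀ X : Finset (Fin m), Xᶜ.map φ = U \ X.map φ := by
    intro X
    rw [compl_eq_univ_sdiff, Finset.map_sdiff, hφuniv]
  set D : ℝ := (m : ℝ) ^ (1 / (k : ℝ)) with hD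
  have hrp : (m : ℝ) ^ (1 + 1 / (k : ℝ)) = m * D := by
    rw [Real.rpow_add hm0', Real.rpow_one]
  rw [hrp] at hU
  refine ⟨m, φ, hm0, hsize, ⟨cycle_comap (G := G) φ hg, ?_, ?_, ?_⟩⟩
  · intro x
    refine le_trans ?_ (hdeg _ (hφU x))
    rw [← deg_eq, ← deg_eq, ← card_map φ]
    apply Nat.cast_le.2
    apply card_le_card
    intro y hy
    rw [mem_map] at hy
    obtain ⟨z, hz, rfl⟩ := hy
    rw [mem_filter] at hz ⊢
    exact ⟨mem_univ _, hz.2⟩
  · intro X hX
    have h1 := expansion_f ha1 hopt (hsub X) (by rw [card_map]; exact hX)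
    rw [ar_comap, hcompl]
    refine le_trans ?_ h1
    rw [card_map, ← hκ]
    calc κ * c / 8 * D * X.card = κ / 4 * (X.card / m) * (c / 2 * (m * D)) := by
          field_simp
          ring
      _ ≤ κ / 2 * (X.card / m) * (c / 2 * (m * D)) := by
          have : κ / 4 ≤ κ / 2 := by linarith
          gcongr
      _ ≤ _ := mul_le_mul_of_nonneg_left hU (by positivity)
  · intro L R hLR
    have h1 := robust_f ha1 hopt (hsub L) (hsub R) ((disjoint_map φ).2 hLR)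
    rw [ar_comap, ar_comap, ar_comap, hcompl, map_union]
    refine le_trans ?_ h1
    rw [← map_union, card_map, ← hκ]
    calc κ * c / 8 * D * (L ∪ R).card = κ / 4 * ((L ∪ R).card / m) * (c / 2 * (m * D)) := by
          field_simp
          ring
      _ ≤ _ := mul_le_mul_of_nonneg_left hU (by positivity)

section Numbers

variable {k : ℕ} {h K : ℝ} {m : ℕ} {H : SimpleGraph (Fin m)} [DecidableRel H.Adj]

theorem Good.deg_ge (hH : Good k h K H) (x : Fin m) :
    h * (m : ℝ) ^ (1 / (k : ℝ)) ≤ (H.degree x : ℝ) := by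
  have h1 := hH.rob {x} ∅ (by simp)
  have h2 : ar H {x} {x} = 0 := by simp [ar]
  have h3 : ar H {x} {x}ᶜ ≤ (H.degree x : ℝ) := by
    rw [ar_eq_sum_card, sum_singleton, ← deg_eq]
    exact_mod_cast card_le_card (filter_subset_filter _ (subset_univ _))
  rw [union_empty, card_singleton, ar_empty, h2] at h1
  push_cast at h1
  linarith

/-- The constants. -/
theorem Good.mix (hk : 1 ≤ k) (hh : 0 < h) (hK : 0 < K) (hm : 0 < m) (hH : Good k h K H)
    {l : ℕ} (hl : 2 * k ≤ l) (x y : Fin m) :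
    |(nP H ^ l) x y - nφ H x * nφ H y / vol H| ≤
      (1 - h ^ 2 / (2 * K ^ 2)) ^ (l - 2 * k) * ((4 * K / h ^ 2) ^ k / m) := by
  have hm0 : (0 : ℝ) < m := by exact_mod_cast hm
  have hkpos : (0 : ℝ) < k := by exact_mod_cast hk
  set D : ℝ := (m : ℝ) ^ (1 / (k : ℝ)) with hD
  have hD0 : 0 < D := Real.rpow_pos_of_pos hm0 _
  have hDk : D ^ k = m := by
    rw [hD, ← Real.rpow_natCast, ← Real.rpow_mul hm0.le]
    have : (1 / (k : ℝ)) * (k : ℝ) = 1 := by field_simp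
    rw [this, Real.rpow_one]
  have : Nonempty (Fin m) := ⟨⟨0, hm⟩⟩
  have h1 := mixing (G := H) hk hH.girth (t := h * D) (Δ := K * D) (by positivity) hH.deg_le
    (by positivity) hH.deg_ge (by rw [Fintype.card_fin]; exact hH.exp) hH.rob hl x y
  have e1 : (h * D) ^ 2 / (2 * (K * D) ^ 2) = h ^ 2 / (2 * K ^ 2) := by
    field_simp
  have e2 : (4 * (K * D)) ^ k / (h * D) ^ (2 * k) = (4 * K / h ^ 2) ^ k / m := by
    rw [← hDk, pow_mul, mul_pow h D 2, ← div_pow, ← div_pow]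
    congr 1
    field_simp
  rwa [e1, e2] at h1

theorem Good.vol_le (hH : Good k h K H) : vol H ≤ m * (K * (m : ℝ) ^ (1 / (k : ℝ))) := by
  unfold vol
  calc ∑ x, (H.degree x : ℝ) ≤ ∑ x : Fin m, K * (m : ℝ) ^ (1 / (k : ℝ)) :=
        sum_le_sum fun x _ => hH.deg_le x
    _ = _ := by rw [sum_const, card_univ, Fintype.card_fin, nsmul_eq_mul]

theorem Good.stat_ge (hh : 0 < h) (hK : 0 < K) (hm : 0 < m)
    (hH : Good k h K H) {s : ℝ} (hs : h * (m : ℝ) ^ (1 / (k : ℝ)) ≤ s) :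
    h / (K * m) ≤ s / vol H := by
  have hm0 : (0 : ℝ) < m := by exact_mod_cast hm
  have hD0 : 0 < (m : ℝ) ^ (1 / (k : ℝ)) := Real.rpow_pos_of_pos hm0 _
  set D : ℝ := (m : ℝ) ^ (1 / (k : ℝ)) with hD
  have hd' : ∀ x, 0 < H.degree x := by
    intro x
    have : (0 : ℝ) < H.degree x := lt_of_lt_of_le (by positivity) (hH.deg_ge x)
    exact_mod_cast this
  have : Nonempty (Fin m) := ⟨⟨0, hm⟩⟩
  have hv := vol_pos hd'
  rw [div_le_div_iff₀ (by positivity) hv]
  calc h * vol H ≤ h * (m * (K * D)) := mul_le_mul_of_nonneg_left hH.vol_le hh.le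
    _ = (h * D) * (K * m) := by ring
    _ ≤ s * (K * m) := mul_le_mul_of_nonneg_right hs (by positivity)

/-- Lower bound for the number of walks. -/
theorem Good.walks (hk : 1 ≤ k) (hh : 0 < h) (hK : 0 < K) (hm : 0 < m) (hH : Good k h K H)
    {l : ℕ} (hl : 2 * k ≤ l)
    (hθ : (1 - h ^ 2 / (2 * K ^ 2)) ^ (l - 2 * k) * (4 * K / h ^ 2) ^ k ≤ h / (2 * K))
    (x y : Fin m) :
    h / (2 * K) * h ^ l * ((m : ℝ) ^ (1 / (k : ℝ))) ^ (l - k) ≤ N H l x y := by
  have hm0 : (0 : ℝ) < m := by exact_mod_cast hm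
  have hkpos : (0 : ℝ) < k := by exact_mod_cast hk
  set D : ℝ := (m : ℝ) ^ (1 / (k : ℝ)) with hD
  have hD0 : 0 < D := Real.rpow_pos_of_pos hm0 _
  have hDk : D ^ k = m := by
    rw [hD, ← Real.rpow_natCast, ← Real.rpow_mul hm0.le]
    have : (1 / (k : ℝ)) * (k : ℝ) = 1 := by field_simp
    rw [this, Real.rpow_one]
  have h1 := hH.mix hk hh hK hm hl x y
  have h2 : h / (K * m) ≤ nφ H x * nφ H y / vol H := by
    apply hH.stat_ge hh hK hm
    have a1 : √(h * D) ≤ nφ H x := Real.sqrt_le_sqrt (hH.deg_ge x)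
    have a2 : √(h * D) ≤ nφ H y := Real.sqrt_le_sqrt (hH.deg_ge y)
    calc h * D = √(h * D) * √(h * D) := (Real.mul_self_sqrt (by positivity)).symm
      _ ≤ _ := mul_le_mul a1 a2 (Real.sqrt_nonneg _) ((Real.sqrt_nonneg _).trans a1)
  have h3 : h / (2 * K * m) ≤ (nP H ^ l) x y := by
    have h4 : (1 - h ^ 2 / (2 * K ^ 2)) ^ (l - 2 * k) * ((4 * K / h ^ 2) ^ k / m) ≤
        h / (2 * K * m) := by
      have h7 : h / (2 * K * m) = h / (2 * K) / m := by rw [div_div]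
      rw [h7, ← mul_div_assoc]
      exact div_le_div_of_nonneg_right hθ hm0.le
    have h5 := (abs_le.1 h1).1
    have h6 : h / (K * m) = 2 * (h / (2 * K * m)) := by
      field_simp
    rw [h6] at h2
    linarith
  have h4 := nP_pow_le (G := H) (t := h * D) (by positivity) hH.deg_ge l x y
  rw [pow_eq_N] at h4
  refine le_trans ?_ h4
  calc h / (2 * K) * h ^ l * D ^ (l - k) = (h * D) ^ l * (h / (2 * K * m)) := by
        have : D ^ l = D ^ (l - k) * m := by
          rw [← hDk, ← pow_add]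
          congr 1
          omega
        rw [mul_pow, this]
        field_simp
    _ ≤ _ := mul_le_mul_of_nonneg_left h3 (by positivity)

open Classical in
/-- Lower bound for the number of paths. -/
theorem Good.paths (hk : 1 ≤ k) (hh : 0 < h) (hK : 0 < K) (hm : 0 < m) (hH : Good k h K H)
    {l M : ℕ} (hl : 4 * k ≤ l)
    (hθ : (1 - h ^ 2 / (2 * K ^ 2)) ^ (l - 2 * k) * (4 * K / h ^ 2) ^ k ≤ h / (2 * K))
    (hD : ((l + 1 : ℝ) ^ 2 + M * (l + 1)) * (4 ^ k * K ^ (l - k - 1)) ≤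
      h / (4 * K) * h ^ l * (m : ℝ) ^ (1 / (k : ℝ)))
    {x y : Fin m} (hxy : x ≠ y) (S : Finset (Fin m)) (hS : S.card ≤ M) (hx : x ∉ S) (hy : y ∉ S) :
    h / (4 * K) * h ^ l * ((m : ℝ) ^ (1 / (k : ℝ))) ^ (l - k) ≤
      (((H.finsetWalkLength l x y).filter fun p => p.IsPath ∧ ∀ z ∈ S, z ∉ p.support).card : ℝ) := by
  have hm0 : (0 : ℝ) < m := by exact_mod_cast hm
  set D : ℝ := (m : ℝ) ^ (1 / (k : ℝ)) with hDd
  have hD0 : 0 < D := Real.rpow_pos_of_pos hm0 _
  have h1 := hH.walks hk hh hK hm (by omega) hθ x y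
  have h2 := paths_ge hH.girth hH.deg_le (by positivity) hl hxy S hx hy
  refine le_trans ?_ (h2.trans (le_of_eq (by congr!)))
  rw [← hDd]
  rw [← hDd] at h1
  have h3 : ((l + 1 : ℝ) ^ 2 + S.card * (l + 1)) * (4 ^ k * (K * D) ^ (l - k - 1)) ≤
      h / (4 * K) * h ^ l * D ^ (l - k) := by
    have hS' : (S.card : ℝ) ≤ M := by exact_mod_cast hS
    calc ((l + 1 : ℝ) ^ 2 + S.card * (l + 1)) * (4 ^ k * (K * D) ^ (l - k - 1))
        ≤ ((l + 1 : ℝ) ^ 2 + M * (l + 1)) * (4 ^ k * (K * D) ^ (l - k - 1)) := by gcongr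
      _ = (((l + 1 : ℝ) ^ 2 + M * (l + 1)) * (4 ^ k * K ^ (l - k - 1))) * D ^ (l - k - 1) := by
          rw [mul_pow]; ring
      _ ≤ (h / (4 * K) * h ^ l * D) * D ^ (l - k - 1) :=
          mul_le_mul_of_nonneg_right hD (by positivity)
      _ = h / (4 * K) * h ^ l * D ^ (l - k) := by
          rw [mul_assoc, ← pow_succ']
          congr 2
          omega
  have h4 : h / (2 * K) = 2 * (h / (4 * K)) := by
    field_simp
    ring
  rw [h4] at h1
  linarith

end Numbers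

end Pool.Agent.J4.H75.GF
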